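import Pool.Agent.Lib.PCG.Defs

/-!
# Module GB1 (variant of PCF.BU1): the algebra on `U = pU s` when the crossed elements vanish

As `PCF.BU1` (same notation: `e x = s x - 1`, `v in V2 = range (e 2)`, (D): `e1 (a v) = D (e1 v)`),
only the consequences of `cross` change. For `i < j`, `ξ = ξ i j`, `η = η i j`, `c = ξ + η`:
* dd: on `V3 = range (e 3)` one has `s1 v = v`, so `cross` gives `a i a j v = c a j a i v` on `V3`;
  transport to `V2` by `e 3` as before: `a i a j = c a j a i` on `V2`, so `D i D j = c D j D i`.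
* lo: apply `cross i j` to `v in V2` with `e1 v = s1 y`, `si v = v - y`:
  left side `a i a j v - a i a j y + a i (D j s1 + B j) y`; right side, with `v' = a i v in V2`,
  `e1 v' = s1 y'`, `y' = D i y`: `s1 v' = v' + s1 y'`, `si v' = v' - y'`,
  η-part: `s1 a j (v' - y') = a j v' - a j y' + (D j s1 + B j) y'`,
  ξ-part: `s1 a j (v' + s1 y') = a j v' + D j s1 y' + a j s1 y' - B j s1 y'`.
  With `a i a j v = c a j a i v` this is `lo`.
* de: apply `e2`, then `e1` to lo (`e1 e2 w = - s1 w`, `e1 e2 a j w = - s1 D j w`,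
  `e1 e2 a i a j y = - D i D j s1 y`), cancel `s1`: `D i B j = ξ (1 + s1) D j D i + (η - ξ s1) B j D i`,
  hence `D i E j = (η - ξ s1) E j D i` (`D i D j = c D j D i`).
* hi: apply `cross i j` to `y in U`, `z = si y`: left side `a i (a j z - B j z)`, insert lo for
  `a i a j z`; right side: `s1 a i y = a i y - B i y`, `si a i y = a i y + si B i y`:
  `c s1 a j a i y + a j (η si - ξ) B i y - B j (η si - ξ) B i y`. So
  `c s1 a j a i y = a i D j y + a j (η si - ξ) (D i - B i) y - B j (η si - ξ) (D i - B i) y - c D j D i y`;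
  apply `si` (`si a i x = a i x + si B i x`, same for `j`): this is `hi`.
* ed: apply `e2`, then `e1` to hi: `c D j D i s1 = s1 D i D j + D j (η - ξ s1) (D i - B i) + B i D j
  - c D j D i` so `E i D j = (η - ξ s1) D j E i`.
-/

namespace Pool.Agent.PCG

open Pool.Agent.Art Pool.Agent.PCF

variable {K V J : Type*} [Field K] [AddCommGroup V] [Module K V] [LinearOrder J]

/-- the hypotheses, pointwise -/
structure Gb1H (A e1 e2 e3 I : Module.End K V) (a b d : J → Module.End K V) (ξ η : J → J → K) :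
    Prop where
  hA : ∀ x, A x = x + e1 x
  AI : ∀ x, A (I x) = x
  IA : ∀ x, I (A x) = x
  Binj : ∀ x, x + e2 x = 0 → x = 0
  ainj : ∀ j x, a j x = 0 → x = 0
  c1 : ∀ z, e1 z + e1 (e1 z) + e1 (e2 (e1 z)) = 0
  c1' : ∀ z, e2 z + e2 (e2 z) + e2 (e1 (e2 z)) = 0
  c2 : ∀ z, e2 z + e2 (e2 z) + e2 (e3 (e2 z)) = 0
  far13 : ∀ z, e1 (e3 z) = 0
  a2 : ∀ j x, a j (e2 x) = e2 (a j x)
  a3 : ∀ j x, a j (e3 x) = e3 (a j x)
  own : ∀ j x, a j (A (a j (A x))) = A (a j (A (a j x)))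
  cross : ∀ i j, i < j → ∀ x, a i (A (a j (I x))) =
    A (a j (ξ i j • A (a i x) + η i j • I (a i x)))
  hb : ∀ j x, b j x = -(e1 (a j x))
  hd : ∀ j x, d j x = -(e1 (a j (e2 (I x))))

section

variable {A e1 e2 e3 I : Module.End K V} {a b d : J → Module.End K V} {ξ η : J → J → K}

theorem gb1_psi (h : Gb1H A e1 e2 e3 I a b d ξ η) :
    ∀ u ∈ LinearMap.range e1, e1 (e2 u) = -(A u) := by
  rintro _ ⟨z, rfl⟩
  rw [h.hA]
  exact eq_neg_of_add_eq_zero_right (h.c1 z)

theorem gb1_ainj (h : Gb1H A e1 e2 e3 I a b d ξ η) {x : V} (hx : A x = 0) : x = 0 := by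
  rw [← h.IA x, hx, map_zero]

theorem gb1_acan (h : Gb1H A e1 e2 e3 I a b d ξ η) {x y : V} (hx : A x = A y) : x = y := by
  rw [← h.IA x, hx, h.IA]

theorem gb1_einj2 (h : Gb1H A e1 e2 e3 I a b d ξ η) :
    ∀ v ∈ LinearMap.range e2, e1 v = 0 → v = 0 := by
  rintro _ ⟨z, rfl⟩ h0
  have h1 := h.c1' z
  rw [h0, map_zero, add_zero] at h1
  exact h.Binj _ h1

theorem gb1_einj3 (h : Gb1H A e1 e2 e3 I a b d ξ η) :
    ∀ v ∈ LinearMap.range e2, e3 v = 0 → v = 0 := by
  rintro _ ⟨z, rfl⟩ h0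
  have h1 := h.c2 z
  rw [h0, map_zero, add_zero] at h1
  exact h.Binj _ h1

theorem gb1_ecan2 (h : Gb1H A e1 e2 e3 I a b d ξ η) {v w : V} (hv : v ∈ LinearMap.range e2)
    (hw : w ∈ LinearMap.range e2) (hvw : e1 v = e1 w) : v = w := by
  refine sub_eq_zero.1 (gb1_einj2 h _ (Submodule.sub_mem _ hv hw) ?_)
  rw [map_sub, hvw, sub_self]

theorem gb1_ecan3 (h : Gb1H A e1 e2 e3 I a b d ξ η) {v w : V} (hv : v ∈ LinearMap.range e2)
    (hw : w ∈ LinearMap.range e2) (hvw : e3 v = e3 w) : v = w := by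
  refine sub_eq_zero.1 (gb1_einj3 h _ (Submodule.sub_mem _ hv hw) ?_)
  rw [map_sub, hvw, sub_self]

theorem gb1_imem (h : Gb1H A e1 e2 e3 I a b d ξ η) :
    ∀ u ∈ LinearMap.range e1, I u ∈ LinearMap.range e1 := by
  rintro _ ⟨z, rfl⟩
  refine ⟨I z, ?_⟩
  have h1 := h.hA (I z)
  rw [h.AI] at h1
  have h2 : e1 z = A z - z := by rw [h.hA]; abel
  have h3 : e1 (I z) = z - I z := by
    nth_rewrite 2 [h1]
    abel
  rw [h3, h2, map_sub, h.IA]

theorem gb1_Amem (h : Gb1H A e1 e2 e3 I a b d ξ η) :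
    ∀ u ∈ LinearMap.range e1, A u ∈ LinearMap.range e1 := by
  intro u hu
  rw [h.hA]
  exact Submodule.add_mem _ hu ⟨_, rfl⟩

theorem gb1_dmem (h : Gb1H A e1 e2 e3 I a b d ξ η) (j : J) (u : V) : d j u ∈ LinearMap.range e1 := by
  rw [h.hd]
  exact Submodule.neg_mem _ ⟨_, rfl⟩

theorem gb1_bmem (h : Gb1H A e1 e2 e3 I a b d ξ η) (j : J) (u : V) : b j u ∈ LinearMap.range e1 := by
  rw [h.hb]
  exact Submodule.neg_mem _ ⟨_, rfl⟩

theorem gb1_sig (h : Gb1H A e1 e2 e3 I a b d ξ η) :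
    ∀ u ∈ LinearMap.range e1, ∃ v ∈ LinearMap.range e2, e1 v = u := by
  intro u hu
  refine ⟨-(e2 (I u)), Submodule.neg_mem _ ⟨_, rfl⟩, ?_⟩
  rw [map_neg, gb1_psi h _ (gb1_imem h u hu), neg_neg, h.AI]

theorem gb1_D (h : Gb1H A e1 e2 e3 I a b d ξ η) (j : J) :
    ∀ v ∈ LinearMap.range e2, d j (e1 v) = e1 (a j v) := by
  intro v hv
  have h1 : -(e2 (I (e1 v))) = v := by
    refine gb1_ecan2 h (Submodule.neg_mem _ ⟨_, rfl⟩) hv ?_
    rw [map_neg, gb1_psi h _ (gb1_imem h _ ⟨v, rfl⟩), neg_neg, h.AI]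
  rw [h.hd, ← map_neg, ← map_neg, h1]

theorem gb1_amem2 (h : Gb1H A e1 e2 e3 I a b d ξ η) (j : J) :
    ∀ v ∈ LinearMap.range e2, a j v ∈ LinearMap.range e2 := by
  rintro _ ⟨z, rfl⟩
  exact ⟨a j z, (h.a2 j z).symm⟩

theorem gb1_e1B (h : Gb1H A e1 e2 e3 I a b d ξ η) :
    ∀ v ∈ LinearMap.range e2, e1 (v + e2 v) = A (e1 v) := by
  intro v hv
  have h1 : v + e2 v = -(e2 (e1 v)) := by
    obtain ⟨z, rfl⟩ := hv
    exact eq_neg_of_add_eq_zero_left (h.c1' z)
  rw [h1, map_neg, gb1_psi h _ ⟨v, rfl⟩, neg_neg]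

theorem gb1_dinj (h : Gb1H A e1 e2 e3 I a b d ξ η) (j : J) :
    ∀ u ∈ LinearMap.range e1, d j u = 0 → u = 0 := by
  intro u hu h0
  obtain ⟨v, hv, rfl⟩ := gb1_sig h u hu
  rw [gb1_D h j v hv] at h0
  have h1 := gb1_einj2 h _ (gb1_amem2 h j v hv) h0
  rw [h.ainj j v h1, map_zero]

theorem gb1_dcan (h : Gb1H A e1 e2 e3 I a b d ξ η) (j : J) {u w : V} (hu : u ∈ LinearMap.range e1)
    (hw : w ∈ LinearMap.range e1) (huw : d j u = d j w) : u = w := by
  refine sub_eq_zero.1 (gb1_dinj h j _ (Submodule.sub_mem _ hu hw) ?_)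
  rw [map_sub, huw, sub_self]

theorem gb1_ds (h : Gb1H A e1 e2 e3 I a b d ξ η) (j : J) :
    ∀ u ∈ LinearMap.range e1, d j (A u) = A (d j u) := by
  intro u hu
  obtain ⟨v, hv, rfl⟩ := gb1_sig h u hu
  rw [← gb1_e1B h v hv, gb1_D h j _ (Submodule.add_mem _ hv ⟨_, rfl⟩), map_add, h.a2,
    gb1_e1B h _ (gb1_amem2 h j v hv), gb1_D h j v hv]

theorem gb1_di (h : Gb1H A e1 e2 e3 I a b d ξ η) (j : J) :
    ∀ u ∈ LinearMap.range e1, d j (I u) = I (d j u) := by
  intro u hu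
  apply gb1_acan h
  rw [← gb1_ds h j _ (gb1_imem h u hu), h.AI, h.AI]

theorem gb1_act2 (h : Gb1H A e1 e2 e3 I a b d ξ η) (j : J) :
    ∀ u ∈ LinearMap.range e1, a j (e2 u) = e2 (d j u) := by
  intro u hu
  refine gb1_ecan2 h (gb1_amem2 h j _ ⟨u, rfl⟩) ⟨_, rfl⟩ ?_
  rw [← gb1_D h j _ ⟨u, rfl⟩, gb1_psi h u hu, map_neg, gb1_ds h j u hu,
    gb1_psi h _ (gb1_dmem h j u)]

/-- `e1 e2 a` on `U` -/
theorem gb1_eea (h : Gb1H A e1 e2 e3 I a b d ξ η) (j : J) (u : V) :
    e1 (e2 (a j u)) = d j (e1 (e2 u)) := by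
  rw [← h.a2, gb1_D h j _ ⟨u, rfl⟩]

/-- the relation (R) -/
theorem gb1_R (h : Gb1H A e1 e2 e3 I a b d ξ η) (j : J) (x : V) :
    a j (a j (e1 x)) + a j (e1 (a j (e1 x))) = e1 (a j (a j x)) + e1 (a j (e1 (a j x))) := by
  have h1 := h.own j x
  rw [h.hA x, h.hA (a j x), map_add (a j) x, map_add (a j) (a j x), h.hA (a j x + a j (e1 x)),
    h.hA (a j (a j x) + a j (e1 (a j x)))] at h1
  simp only [map_add] at h1
  have h2 : a j (a j (e1 x)) + a j (e1 (a j (e1 x))) =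
      (a j (a j x) + a j (a j (e1 x)) + (a j (e1 (a j x)) + a j (e1 (a j (e1 x))))) -
        a j (a j x) - a j (e1 (a j x)) := by abel
  rw [h2, h1]
  abel

theorem gb1_own (h : Gb1H A e1 e2 e3 I a b d ξ η) (i : J) :
    ∀ u ∈ LinearMap.range e1, a i (a i u) = a i (b i u) + d i (d i u) - b i (d i u) := by
  intro u hu
  obtain ⟨v, hv, rfl⟩ := gb1_sig h u hu
  have h1 := gb1_R h i v
  have h2 : e1 (a i (a i v)) = d i (d i (e1 v)) := by
    rw [gb1_D h i v hv, gb1_D h i _ (gb1_amem2 h i v hv)]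
  rw [h2, ← gb1_D h i v hv] at h1
  rw [h.hb, h.hb, map_neg]
  have h3 : a i (a i (e1 v)) = (a i (a i (e1 v)) + a i (e1 (a i (e1 v)))) -
    a i (e1 (a i (e1 v))) := by abel
  rw [h3, h1]
  abel

theorem gb1_dbs (h : Gb1H A e1 e2 e3 I a b d ξ η) (i : J) :
    ∀ u ∈ LinearMap.range e1, d i (b i u) = b i (d i u) := by
  intro u hu
  have h1 := congrArg (fun x => e1 (e2 x)) (gb1_own h i u hu)
  simp only [map_add, map_sub] at h1
  rw [gb1_eea h, gb1_eea h, gb1_eea h, gb1_psi h u hu, gb1_psi h _ (gb1_bmem h i u),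
    gb1_psi h _ (gb1_dmem h i _), gb1_psi h _ (gb1_bmem h i _)] at h1
  simp only [map_neg] at h1
  rw [gb1_ds h i u hu, gb1_ds h i _ (gb1_dmem h i u), gb1_ds h i _ (gb1_bmem h i u)] at h1
  apply gb1_acan h
  have h2 : A (b i (d i u)) = (-(A (d i (b i u))) + -(A (d i (d i u))) - -(A (b i (d i u)))) +
    A (d i (b i u)) + A (d i (d i u)) := by abel
  rw [h2, ← h1]
  abel

theorem gb1_bs (h : Gb1H A e1 e2 e3 I a b d ξ η) (i : J) :
    ∀ u ∈ LinearMap.range e1, b i (A u) = A (b i u) := by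
  intro u hu
  have hE : e1 u ∈ LinearMap.range e1 := ⟨u, rfl⟩
  have de : ∀ w ∈ LinearMap.range e1, d i (e1 w) = e1 (d i w) := by
    intro w hw
    have k := gb1_ds h i w hw
    rw [h.hA, h.hA, map_add] at k
    exact add_left_cancel k
  -- `e1` of own
  have h1 := congrArg (fun x => e1 x) (gb1_own h i u hu)
  simp only [map_add, map_sub] at h1
  have h2 := gb1_R h i u
  have h3 := gb1_own h i (e1 u) hE
  have hb' : ∀ x, e1 (a i x) = -(b i x) := fun x => by rw [h.hb, neg_neg]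
  rw [hb' (a i u)] at h1
  rw [hb' (e1 u), hb' (a i u), hb' u] at h2
  rw [hb' (b i u)] at h1
  simp only [map_neg] at h2
  rw [hb' (b i u), h1, h3, neg_neg] at h2
  rw [de u hu, de _ (gb1_dmem h i u)] at h2
  -- h2 : b d e = e b d
  have h4 : b i (e1 (d i u)) = e1 (b i (d i u)) := by
    have k : b i (e1 (d i u)) = (a i (b i (e1 u)) + e1 (d i (d i u))) -
      (a i (b i (e1 u)) + e1 (d i (d i u)) - b i (e1 (d i u)) + -(a i (b i (e1 u)))) -
      a i (b i (e1 u)) := by abel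
    rw [k, h2]
    abel
  have h5 : d i (b i (e1 u)) = d i (e1 (b i u)) := by
    rw [gb1_dbs h i _ hE, de u hu, h4, de _ (gb1_bmem h i u), gb1_dbs h i u hu]
  have h6 := gb1_dcan h i (gb1_bmem h i _) ⟨_, rfl⟩ h5
  rw [h.hA, h.hA, map_add, h6]

/-- the `a i` commute up to a scalar on the image of `e2` -/
theorem gb1_comm2 (h : Gb1H A e1 e2 e3 I a b d ξ η) {i j : J} (hij : i < j) :
    ∀ v ∈ LinearMap.range e2, a i (a j v) = (ξ i j + η i j) • a j (a i v) := by
  -- on the image of `e3`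
  have hfix : ∀ z, A (e3 z) = e3 z := fun z => by rw [h.hA, h.far13, add_zero]
  have hfixI : ∀ z, I (e3 z) = e3 z := fun z => by
    nth_rewrite 1 [← hfix z]
    rw [h.IA]
  have h3 : ∀ z, e3 (a i (a j z)) = (ξ i j + η i j) • e3 (a j (a i z)) := by
    intro z
    have k := h.cross i j hij (e3 z)
    rw [hfixI, h.a3 j z, hfix, h.a3 i (a j z), h.a3 i z, hfix, hfixI, ← add_smul, map_smul,
      map_smul, h.a3 j (a i z), hfix] at k
    exact k
  intro v hv
  refine gb1_ecan3 h (gb1_amem2 h i _ (gb1_amem2 h j v hv))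
    (Submodule.smul_mem _ _ (gb1_amem2 h j _ (gb1_amem2 h i v hv))) ?_
  rw [map_smul]
  exact h3 v

theorem gb1_dd (h : Gb1H A e1 e2 e3 I a b d ξ η) {i j : J} (hij : i < j) :
    ∀ u ∈ LinearMap.range e1, d i (d j u) = (ξ i j + η i j) • d j (d i u) := by
  intro u hu
  obtain ⟨v, hv, rfl⟩ := gb1_sig h u hu
  rw [gb1_D h j v hv, gb1_D h i v hv, gb1_D h i _ (gb1_amem2 h j v hv),
    gb1_D h j _ (gb1_amem2 h i v hv), gb1_comm2 h hij v hv, map_smul]

/-- the conjugate of `a j` on the image of `e2` -/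
theorem gb1_conj (h : Gb1H A e1 e2 e3 I a b d ξ η) (j : J) {w y : V}
    (hw : w ∈ LinearMap.range e2) (hy : e1 w = A y) :
    A (a j (I w)) = a j w - a j y + d j (A y) + b j y := by
  have h1 : I w = w - y := by
    have k := h.hA w
    rw [hy] at k
    have k2 := congrArg I k
    rw [h.IA, map_add, h.IA] at k2
    exact eq_sub_of_add_eq k2.symm
  rw [h1, map_sub, h.hA, map_sub, ← gb1_D h j w hw, hy, h.hb]
  abel

theorem gb1_Aa (h : Gb1H A e1 e2 e3 I a b d ξ η) (j : J) (x : V) :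
    A (a j x) = a j x - b j x := by
  rw [h.hA, h.hb]
  abel

theorem gb1_Ia (h : Gb1H A e1 e2 e3 I a b d ξ η) (j : J) (x : V) :
    I (a j x) = a j x + I (b j x) := by
  have k := congrArg I (gb1_Aa h j x)
  rw [h.IA, map_sub] at k
  nth_rewrite 2 [k]
  abel

theorem gb1_conj2 (h : Gb1H A e1 e2 e3 I a b d ξ η) (j : J) {w y : V}
    (hw : w ∈ LinearMap.range e2) (hy : e1 w = A y) :
    A (a j (A w)) = a j w + d j (A y) + a j (A y) - b j (A y) := by
  have h1 : A w = w + A y := by rw [h.hA, hy]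
  rw [h1, map_add, map_add, gb1_Aa h j (A y), h.hA (a j w), ← gb1_D h j w hw, hy]
  abel

theorem gb1_lo (h : Gb1H A e1 e2 e3 I a b d ξ η) {i j : J} (hij : i < j) :
    ∀ y ∈ LinearMap.range e1, a i (a j y) = a i (d j (A y) + b j y) +
      η i j • (a j (d i y) - (d j (A (d i y)) + b j (d i y))) -
      ξ i j • (a j (A (d i y)) + (d j (A (d i y)) - b j (A (d i y)))) := by
  intro y hy
  obtain ⟨v, hv, hvy⟩ := gb1_sig h (A y) (gb1_Amem h y hy)
  have h1 := h.cross i j hij v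
  have h2 : e1 (a i v) = A (d i y) := by
    rw [← gb1_D h i v hv, hvy, gb1_ds h i y hy]
  rw [map_add (a j), map_smul (a j), map_smul (a j), map_add A, map_smul A, map_smul A,
    gb1_conj h j hv hvy, gb1_conj h j (gb1_amem2 h i v hv) h2,
    gb1_conj2 h j (gb1_amem2 h i v hv) h2] at h1
  simp only [map_add, map_sub] at h1 ⊢
  rw [gb1_comm2 h hij v hv] at h1
  linear_combination (norm := module) -h1

theorem gb1_de (h : Gb1H A e1 e2 e3 I a b d ξ η) {i j : J} (hij : i < j) :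
    ∀ u ∈ LinearMap.range e1, d i (b j u - d j u) = η i j • (b j (d i u) - d j (d i u)) -
      ξ i j • A (b j (d i u) - d j (d i u)) := by
  intro u hu
  have h1 := congrArg (fun x => e1 (e2 x)) (gb1_lo h hij u hu)
  have hAu := gb1_Amem h u hu
  have hd := gb1_dmem h
  have hb := gb1_bmem h
  have hAd : ∀ j u, A (d j u) ∈ LinearMap.range e1 := fun j u => gb1_Amem h _ (hd j u)
  simp only [map_add, map_sub, map_smul] at h1
  rw [gb1_eea h, gb1_eea h, gb1_eea h, gb1_eea h, gb1_eea h, gb1_eea h, gb1_psi h u hu,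
    gb1_psi h _ (hb j u), gb1_psi h _ (hd j _), gb1_psi h _ (hd i _), gb1_psi h _ (hAd i u),
    gb1_psi h _ (hd j _), gb1_psi h _ (hb j _), gb1_psi h _ (hb j _)] at h1
  simp only [map_neg] at h1
  rw [gb1_ds h j u hu, gb1_ds h i _ (hd j u), gb1_ds h i _ (hAd j u), gb1_ds h i _ (hd j u),
    gb1_ds h i _ (hb j u), gb1_ds h j _ (hAd i u), gb1_ds h j _ (hd i u),
    gb1_bs h j _ (hd i u), gb1_dd h hij u hu] at h1
  simp only [map_smul] at h1
  apply gb1_acan h
  simp only [map_sub, map_smul]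
  rw [gb1_dd h hij u hu]
  simp only [map_smul]
  linear_combination (norm := module) h1

theorem gb1_hi (h : Gb1H A e1 e2 e3 I a b d ξ η) {i j : J} (hij : i < j) :
    ∀ y ∈ LinearMap.range e1, (ξ i j + η i j) • a j (a i y) = a i (d j y) +
      a j (η i j • I (d i y - b i y) - ξ i j • (d i y - b i y)) +
      I (b i (d j y) - (ξ i j + η i j) • d j (d i y)) := by
  intro y hy
  have hz := gb1_imem h y hy
  have k1 : a i (A (a j (I y))) = a i (d j y) +
      η i j • (a j (I (d i y)) - d j (d i y) - b j (I (d i y))) -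
      ξ i j • (a j (d i y) + d j (d i y) - b j (d i y)) := by
    rw [gb1_Aa h, map_sub, gb1_lo h hij (I y) hz, h.AI, gb1_di h i y hy, h.AI, map_add]
    module
  have k2 : A (a j (ξ i j • A (a i y) + η i j • I (a i y))) =
      (ξ i j + η i j) • A (a j (a i y)) - ξ i j • (a j (b i y) - b j (b i y)) +
      η i j • (a j (I (b i y)) - b j (I (b i y))) := by
    rw [gb1_Ia h, gb1_Aa h i y]
    simp only [map_add, map_sub, map_smul]
    rw [gb1_Aa h j (I (b i y)), gb1_Aa h j (b i y)]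
    module
  have k3 := congrArg I (k1.symm.trans ((h.cross i j hij y).trans k2))
  simp only [map_add, map_sub, map_smul, h.IA] at k3
  rw [gb1_Ia h i, gb1_Ia h j (I (d i y)), gb1_Ia h j (I (b i y)), gb1_Ia h j (d i y),
    gb1_Ia h j (b i y)] at k3
  simp only [map_sub, map_smul]
  linear_combination (norm := module) -k3

theorem gb1_ed (h : Gb1H A e1 e2 e3 I a b d ξ η) {i j : J} (hij : i < j) :
    ∀ u ∈ LinearMap.range e1, b i (d j u) - d i (d j u) = η i j • d j (b i u - d i u) -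
      ξ i j • A (d j (b i u - d i u)) := by
  intro u hu
  have h1 := congrArg (fun x => e1 (e2 x)) (gb1_hi h hij u hu)
  have hd := gb1_dmem h
  have hb := gb1_bmem h
  have hI := gb1_imem h
  simp only [map_add, map_sub, map_smul] at h1
  rw [gb1_eea h, gb1_eea h, gb1_eea h, gb1_eea h, gb1_eea h, gb1_eea h, gb1_eea h,
    gb1_psi h u hu, gb1_psi h _ (hd j _), gb1_psi h _ (hI _ (hd i u)),
    gb1_psi h _ (hI _ (hb i u)), gb1_psi h _ (hd i u), gb1_psi h _ (hb i u),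
    gb1_psi h _ (hI _ (hb i _)), gb1_psi h _ (hI _ (hd j _))] at h1
  simp only [map_neg, h.AI] at h1
  rw [gb1_ds h i u hu, gb1_ds h i _ (hd j u), gb1_ds h j _ (hd i u), gb1_ds h j _ (hb i u),
    gb1_dd h hij u hu] at h1
  simp only [map_sub, map_smul] at h1 ⊢
  rw [gb1_dd h hij u hu]
  linear_combination (norm := module) h1

end

theorem gb1_base {m : ℤ} (hm : 11 ≤ m) {s : ℤ → Module.End K V} {si : Module.End K V}
    {a : J → Module.End K V} {ξ η : J → J → K} (hP : GSys m s si a ξ η) (hF : FarZ m s)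
    (hC : ∀ x, 1 ≤ x → x + 1 ≤ m → cE s x = 0) :
    Gb1H (s 1) (s 1 - 1) (s 2 - 1) (s 3 - 1) si a (pB s a) (pD s si a) ξ η where
  hA x := by
    show s 1 x = x + (s 1 x - x)
    abel
  AI x := LinearMap.congr_fun hP.inv1 x
  IA x := LinearMap.congr_fun hP.inv2 x
  Binj x hx := by
    apply hP.inj 2 ⟨by omega, by omega⟩
    rw [map_zero, ← hx]
    show s 2 x = x + (s 2 x - x)
    abel
  ainj j x hx := hP.ainj j (by rw [hx, map_zero])
  c1 z := LinearMap.congr_fun (hC 1 (by omega) (by omega)) z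
  c1' z := by
    have h := cE_eq (hP.chain.braid 1 ⟨by omega, by omega⟩ (1 + 1) ⟨by omega, by omega⟩
      (hum_chain (by omega)))
    rw [hC 1 (by omega) (by omega)] at h
    exact (LinearMap.congr_fun h z).symm
  c2 z := LinearMap.congr_fun (hC 2 (by omega) (by omega)) z
  far13 z := LinearMap.congr_fun (hF 1 ⟨by omega, by omega⟩ 3 ⟨by omega, by omega⟩
    (far_chain (by omega) (by omega) (by omega))) z
  a2 j x := by
    have h := LinearMap.congr_fun (hP.far j 2 (by omega) (by omega)) x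
    show a j (s 2 x - x) = s 2 (a j x) - a j x
    rw [map_sub]
    exact congrArg (fun y => y - a j x) h
  a3 j x := by
    have h := LinearMap.congr_fun (hP.far j 3 (by omega) (by omega)) x
    show a j (s 3 x - x) = s 3 (a j x) - a j x
    rw [map_sub]
    exact congrArg (fun y => y - a j x) h
  own j x := LinearMap.congr_fun (hP.own j) x
  cross i j hij x := LinearMap.congr_fun (hP.cross i j hij) x
  hb j x := rfl
  hd j x := rfl

theorem gb_alg {m : ℤ} (hm : 11 ≤ m) {s : ℤ → Module.End K V} {si : Module.End K V}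
    {a : J → Module.End K V} {ξ η : J → J → K} (hP : GSys m s si a ξ η) (hF : FarZ m s)
    (hC : ∀ x, 1 ≤ x → x + 1 ≤ m → cE s x = 0) : GBFacts s si a ξ η := by
  have h := gb1_base hm hP hF hC
  exact ⟨gb1_psi h, gb1_Amem h, gb1_imem h, gb1_dinj h, gb1_act2 h,
    fun j u hu => (h.a2 j u).symm.trans (gb1_act2 h j u hu), gb1_ds h, gb1_bs h,
    fun i j hij => gb1_dd h hij, fun i => gb1_dbs h i, fun i j hij => gb1_de h hij,
    fun i j hij => gb1_ed h hij, gb1_own h, fun i j hij => gb1_lo h hij,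
    fun i j hij => gb1_hi h hij⟩

end Pool.Agent.PCG
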