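import Pool.Agent.Lib.PCG.Defs
import Pool.Agent.Lib.PCF.BU2

/-!
# Module GB2 (variant of PCF.BU2): the transform (crossed elements zero)

(M) as in `PCF.BU2`: every `U' /= 0` in `U = pU s` stable under `s 1`, all `B j`, all `D j`
(equivalently all `E j = B j - D j` and all `D j`) is `U`; `N = top`.
(S) only `s 1` becomes a scalar: the eigenspaces of `s 1` in `U` are stable under the `D j`, `B j`:
`s 1 u = - q u` on `U`. Then every `U' <= U` stable under all `D j`, `E j` is `0` or `U`.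
(U) OUTPUT. `u 1 v = v`, `u (x+1) v = - e (x+1) (u x v)` as before. `X j v := a j v - D j v`.
`ϖ = η + q ξ`, `c = ξ + η`.
 `s 1 (X j v) = a j v - B j v + q D j v = X j v - (E j - q D j) v`;
 `s 2 (X j v) = X j v` (act2'), `s x (X j v) = X j v`, `x >= 3`;
 `a j (u 1 v) = X j v + u 1 (D j v)`; `a j (u x v) = u x (D j v)`, `x >= 2` (act2, `a j` commutes
 with `e x`); `a i (X i v) = X i (E i v)` (own, db);
 `i < j`: `a i (X j v) = a i a j v - a i D j v`, insert lo with `s1 = - q`: it is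
 `a i (E j - q D j) v + ϖ a j D i v - ϖ E j D i v - η (1 - q) D j D i v`, then `a i w = X i w + D i w`,
 `a j w = X j w + D j w` and `D i E j = ϖ E j D i`, `D i D j = c D j D i`:
 `= ϖ X j D i v + X i (E j - q D j) v`;
 `i < j`: `c a j (X i v)`, insert hi with `s1 = - q`, `si = - q⁻¹`: `= X i D j v +
 X j (q⁻¹ ϖ E i - c D i) v` (uses `E i D j = ϖ D j E i`).
(einj) `a s1 a s1 u = - q a (a u - B u) = - q (D D u - B D u) = q E D u` (`a = a j`, own), the left
side is injective, `D` is injective, so `E` is injective (`D E = E D`; `U` finite dimensional, or: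
`E u = 0 → E D u = D E u = 0`).
-/

namespace Pool.Agent.PCG

open Pool.Agent.Art Pool.Agent.PCF

variable {K V J : Type*} [Field K] [AddCommGroup V] [Module K V] [LinearOrder J]

section Master

variable {m : ℤ} {s : ℤ → Module.End K V} {si : Module.End K V}
    {a : J → Module.End K V} {U' : Submodule K V} {ξ η : J → J → K}

/-- `s (n + 1)` on the piece `n` -/
theorem gb2_pX_own (hP : GSys m s si a ξ η) (hC : ∀ x, 1 ≤ x → x + 1 ≤ m → cE s x = 0)
    (hU : U' ≤ pU s) (h1 : ∀ w ∈ U', s 1 w ∈ U') (n : ℕ) (hn : (n : ℤ) + 1 ≤ m) :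
    ∀ w ∈ bu2_pX s U' n, s ((n : ℤ) + 1) w ∈ bu2_pX s U' n := by
  induction n with
  | zero =>
    have e : ((0 : ℕ) : ℤ) + 1 = 1 := by norm_num
    rw [e]
    exact h1
  | succ n ih =>
    have e : ((n + 1 : ℕ) : ℤ) + 1 = (n : ℤ) + 1 + 1 := by push_cast; ring
    rw [e] at hn ⊢
    rintro _ ⟨w, hw, rfl⟩
    rw [bu2_s_up (hP.chain.braid ((n : ℤ) + 1) ⟨by omega, by omega⟩ ((n : ℤ) + 1 + 1)
      ⟨by omega, by omega⟩ (hum_chain (by omega))) (hC _ (by omega) hn) (bu2_pX_le hU n hw)]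
    exact ⟨_, ih (by omega) w hw, rfl⟩

/-- `a j` on the piece `n`, `n ≥ 1` -/
theorem gb2_pX_a (hP : GSys m s si a ξ η) (hB : GBFacts s si a ξ η)
    (hU : U' ≤ pU s) (h3 : ∀ j, ∀ w ∈ U', pD s si a j w ∈ U') (j : J) (n : ℕ)
    (hn : (n : ℤ) + 2 ≤ m) :
    ∀ w ∈ bu2_pX s U' (n + 1), a j w ∈ bu2_pX s U' (n + 1) := by
  induction n with
  | zero =>
    rintro _ ⟨w, hw, rfl⟩
    have e : ((0 : ℕ) : ℤ) + 1 + 1 = 2 := by norm_num
    refine ⟨pD s si a j w, h3 j w hw, ?_⟩
    rw [e]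
    exact (hB.act2 j w (hU hw)).symm
  | succ n ih =>
    rintro _ ⟨w, hw, rfl⟩
    have e : ((n + 1 : ℕ) : ℤ) + 1 + 1 = (n : ℤ) + 3 := by push_cast; ring
    refine ⟨a j w, ih (by push_cast at hn; omega) w hw, ?_⟩
    rw [e]
    have h := LinearMap.congr_fun (hP.far j ((n : ℤ) + 3) (by omega) (by push_cast at hn; omega)) w
    have h' : a j (s ((n : ℤ) + 3) w) = s ((n : ℤ) + 3) (a j w) := h
    show s ((n : ℤ) + 3) (a j w) - a j w = a j (s ((n : ℤ) + 3) w - w)
    rw [map_sub, h']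

/-- (M), stability -/
theorem gb2_pN_stable [FiniteDimensional K V] (hm : 11 ≤ m) (hP : GSys m s si a ξ η) (hF : FarZ m s)
    (hC : ∀ x, 1 ≤ x → x + 1 ≤ m → cE s x = 0) (hB : GBFacts s si a ξ η)
    (hU : U' ≤ pU s) (h1 : ∀ w ∈ U', s 1 w ∈ U') (h2 : ∀ j, ∀ w ∈ U', pB s a j w ∈ U')
    (h3 : ∀ j, ∀ w ∈ U', pD s si a j w ∈ U') :
    (∀ x ∈ Set.Icc 1 m, ∀ w ∈ bu2_pN m s a U', s x w ∈ bu2_pN m s a U') ∧
    (∀ j, ∀ w ∈ bu2_pN m s a U', a j w ∈ bu2_pN m s a U') := by
  have hU0 : ∀ w ∈ U', w ∈ bu2_pN m s a U' := fun w hw => bu2_mem_pX (n := 0) (by push_cast; omega) hw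
  have hsi : ∀ w ∈ U', si w ∈ U' := by
    have hinj : Function.Injective ((s 1).restrict h1) := by
      intro v w hvw
      apply Subtype.ext
      apply hP.inj 1 ⟨le_rfl, by omega⟩
      exact congrArg Subtype.val hvw
    have hsurj := LinearMap.injective_iff_surjective.1 hinj
    intro w hw
    obtain ⟨v, hv⟩ := hsurj ⟨w, hw⟩
    have h4 : s 1 (v : V) = w := congrArg Subtype.val hv
    have h5 : si (s 1 (v : V)) = v := LinearMap.congr_fun hP.inv2 (v : V)
    rw [← h4, h5]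
    exact v.2
  refine ⟨?_, ?_⟩
  · intro x hx w hw
    obtain ⟨hx1, hx2⟩ := hx
    refine (bu2_pN_le (T := (bu2_pN m s a U').comap (s x)) ?_ ?_) hw
    · intro n hn w hw
      show s x w ∈ bu2_pN m s a U'
      have hr := bu2_pX_le hU n hw
      by_cases c1 : x = (n : ℤ) + 1
      · rw [c1]
        exact bu2_mem_pX hn (gb2_pX_own hP hC hU h1 n hn w hw)
      · by_cases c2 : x = (n : ℤ) + 1 + 1
        · have h : s x w = w + (s x - 1) w := by
            show s x w = w + (s x w - w)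
            abel
          rw [h]
          refine Submodule.add_mem _ (bu2_mem_pX hn hw) (bu2_mem_pX (n := n + 1) (by push_cast; omega) ?_)
          rw [c2]
          exact ⟨w, hw, rfl⟩
        · by_cases c3 : x + 1 = (n : ℤ) + 1
          · obtain ⟨k, rfl⟩ : ∃ k, n = k + 1 := ⟨n - 1, by omega⟩
            obtain ⟨v, hv, rfl⟩ := hw
            have e : x = (k : ℤ) + 1 := by push_cast at c3; omega
            have h : s x ((s ((k : ℤ) + 1 + 1) - 1) v) =
                (s ((k : ℤ) + 1 + 1) - 1) v + (s x - 1) ((s ((k : ℤ) + 1 + 1) - 1) v) := by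
              show s x ((s ((k : ℤ) + 1 + 1) - 1) v) = (s ((k : ℤ) + 1 + 1) - 1) v +
                (s x ((s ((k : ℤ) + 1 + 1) - 1) v) - (s ((k : ℤ) + 1 + 1) - 1) v)
              abel
            rw [h, e, bu2_psi_up (hC _ (by omega) (by push_cast at hn; omega)) (bu2_pX_le hU k hv)]
            push_cast at hn
            exact Submodule.add_mem _ (bu2_mem_pX (n := k + 1) (by push_cast; omega) ⟨v, hv, rfl⟩)
              (Submodule.neg_mem _ (bu2_mem_pX (n := k) (by omega)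
                (gb2_pX_own hP hC hU h1 k (by omega) v hv)))
          · have h := bu2_far_fix hF hx1 hx2 (by omega) hn (by omega) hr
            have h' : s x w - w = 0 := h
            rw [sub_eq_zero.1 h']
            exact bu2_mem_pX hn hw
    · intro j w hw
      show s x (a j w) ∈ bu2_pN m s a U'
      have h : s x (a j w) = a j w + (s x - 1) (a j w) := by
        show s x (a j w) = a j w + (s x (a j w) - a j w)
        abel
      rw [h]
      refine Submodule.add_mem _ (bu2_mem_pa j hw) ?_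
      by_cases c1 : x = 1
      · subst c1
        have h4 : (s 1 - 1) (a j w) = - pB s a j w := by
          show (s 1 - 1) (a j w) = - -((s 1 - 1) (a j w))
          rw [neg_neg]
        rw [h4]
        exact hU0 _ (Submodule.neg_mem _ (h2 j w hw))
      · by_cases c2 : x = 2
        · subst c2
          rw [hB.act2' j w (hU hw)]
          refine bu2_mem_pX (n := 1) (by push_cast; omega) ⟨pD s si a j w, h3 j w hw, ?_⟩
          norm_num
        · have h4 := LinearMap.congr_fun (hP.far j x (by omega) hx2) w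
          have h5 : a j (s x w) = s x (a j w) := h4
          have h6 : (s x - 1) (a j w) = a j ((s x - 1) w) := by
            show s x (a j w) - a j w = a j (s x w - w)
            rw [map_sub, h5]
          rw [h6, bu2_far_fix hF hx1 hx2 (y := 1) le_rfl (by omega) (by omega) (hU hw), map_zero]
          exact Submodule.zero_mem _
  · intro j w hw
    refine (bu2_pN_le (T := (bu2_pN m s a U').comap (a j)) ?_ ?_) hw
    · intro n hn w hw
      show a j w ∈ bu2_pN m s a U'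
      cases n with
      | zero => exact bu2_mem_pa j hw
      | succ n =>
        exact bu2_mem_pX hn (gb2_pX_a hP hB hU h3 j n (by push_cast at hn; omega) w hw)
    · intro i w hw
      show a j (a i w) ∈ bu2_pN m s a U'
      rcases lt_trichotomy i j with hij | hij | hij
      · rw [← Submodule.smul_mem_iff _ (hP.xy0 i j hij), hB.hi i j hij w (hU hw)]
        exact Submodule.add_mem _ (Submodule.add_mem _ (bu2_mem_pa _ (h3 _ _ hw))
          (bu2_mem_pa _ (Submodule.sub_mem _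
            (Submodule.smul_mem _ _ (hsi _ (Submodule.sub_mem _ (h3 _ _ hw) (h2 _ _ hw))))
            (Submodule.smul_mem _ _ (Submodule.sub_mem _ (h3 _ _ hw) (h2 _ _ hw))))))
          (hU0 _ (hsi _ (Submodule.sub_mem _ (h2 _ _ (h3 _ _ hw))
            (Submodule.smul_mem _ _ (h3 _ _ (h3 _ _ hw))))))
      · subst hij
        rw [hB.own i w (hU hw)]
        exact Submodule.sub_mem _ (Submodule.add_mem _ (bu2_mem_pa _ (h2 _ _ hw))
          (hU0 _ (h3 _ _ (h3 _ _ hw)))) (hU0 _ (h2 _ _ (h3 _ _ hw)))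
      · rw [hB.lo j i hij w (hU hw)]
        exact Submodule.sub_mem _ (Submodule.add_mem _
          (bu2_mem_pa _ (Submodule.add_mem _ (h3 _ _ (h1 _ hw)) (h2 _ _ hw)))
          (Submodule.smul_mem _ _ (Submodule.sub_mem _ (bu2_mem_pa _ (h3 _ _ hw))
            (hU0 _ (Submodule.add_mem _ (h3 _ _ (h1 _ (h3 _ _ hw))) (h2 _ _ (h3 _ _ hw)))))))
          (Submodule.smul_mem _ _ (Submodule.add_mem _ (bu2_mem_pa _ (h1 _ (h3 _ _ hw)))
            (hU0 _ (Submodule.sub_mem _ (h3 _ _ (h1 _ (h3 _ _ hw)))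
              (h2 _ _ (h1 _ (h3 _ _ hw)))))))

/-- (M) -/
theorem gb2_pN_top [FiniteDimensional K V] (hm : 11 ≤ m) (hP : GSys m s si a ξ η) (hF : FarZ m s)
    (hC : ∀ x, 1 ≤ x → x + 1 ≤ m → cE s x = 0) (hB : GBFacts s si a ξ η) (hirr : Irr m s a)
    (hU : U' ≤ pU s) (h1 : ∀ w ∈ U', s 1 w ∈ U') (h2 : ∀ j, ∀ w ∈ U', pB s a j w ∈ U')
    (h3 : ∀ j, ∀ w ∈ U', pD s si a j w ∈ U') (h0 : U' ≠ ⊥) : bu2_pN m s a U' = ⊤ := by
  obtain ⟨k1, k2⟩ := gb2_pN_stable hm hP hF hC hB hU h1 h2 h3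
  rcases hirr _ k1 k2 with h | h
  · exfalso
    apply h0
    rw [eq_bot_iff, ← h]
    intro w hw
    exact bu2_mem_pX (n := 0) (by push_cast; omega) hw
  · exact h

theorem gb2_pU_simple [FiniteDimensional K V] (hm : 11 ≤ m) (hP : GSys m s si a ξ η) (hF : FarZ m s)
    (hC : ∀ x, 1 ≤ x → x + 1 ≤ m → cE s x = 0) (hB : GBFacts s si a ξ η) (hirr : Irr m s a)
    (hU : U' ≤ pU s) (h1 : ∀ w ∈ U', s 1 w ∈ U') (h2 : ∀ j, ∀ w ∈ U', pB s a j w ∈ U')
    (h3 : ∀ j, ∀ w ∈ U', pD s si a j w ∈ U') : U' = ⊥ ∨ U' = pU s := by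
  by_cases h0 : U' = ⊥
  · exact Or.inl h0
  right
  refine le_antisymm hU ?_
  have ht := gb2_pN_top hm hP hF hC hB hirr hU h1 h2 h3 h0
  rintro _ ⟨z, rfl⟩
  have hz : z ∈ bu2_pN m s a U' := by rw [ht]; exact Submodule.mem_top
  refine (bu2_pN_le (T := U'.comap (s 1 - 1)) ?_ ?_) hz
  · intro n hn w hw
    show (s 1 - 1) w ∈ U'
    match n, hn, hw with
    | 0, hn, hw => exact Submodule.sub_mem _ (h1 w hw) hw
    | 1, hn, hw =>
      obtain ⟨v, hv, rfl⟩ := hw
      have h := bu2_psi_up (hC 1 le_rfl (by omega)) (hU hv)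
      have e : ((0 : ℕ) : ℤ) + 1 + 1 = 1 + 1 := by norm_num
      rw [e, h]
      exact Submodule.neg_mem _ (h1 v hv)
    | n + 2, hn, hw =>
      have hr := bu2_pX_le hU (n + 2) hw
      rw [bu2_far_fix hF (x := 1) le_rfl (by omega) (by push_cast; omega) hn (by push_cast; omega) hr]
      exact Submodule.zero_mem _
  · intro j w hw
    show (s 1 - 1) (a j w) ∈ U'
    have h4 : (s 1 - 1) (a j w) = - pB s a j w := by
      show (s 1 - 1) (a j w) = - -((s 1 - 1) (a j w))
      rw [neg_neg]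
    rw [h4]
    exact Submodule.neg_mem _ (h2 j w hw)

/-- (S) -/
theorem gb2_pU_scal [IsAlgClosed K] [FiniteDimensional K V] (hm : 11 ≤ m) (hP : GSys m s si a ξ η)
    (hF : FarZ m s)
    (hC : ∀ x, 1 ≤ x → x + 1 ≤ m → cE s x = 0) (hB : GBFacts s si a ξ η) (hirr : Irr m s a)
    (h12 : s 1 ≠ 1) {T : Module.End K V} (hT : ∀ u ∈ pU s, T u ∈ pU s)
    (h1 : ∀ u ∈ pU s, T (s 1 u) = s 1 (T u)) (h2 : ∀ j, ∀ u ∈ pU s, T (pB s a j u) = pB s a j (T u))
    (h3 : ∀ j, ∀ u ∈ pU s, T (pD s si a j u) = pD s si a j (T u)) :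
    ∃ c : K, ∀ u ∈ pU s, T u = c • u := by
  have hne : Nontrivial (pU s) := by
    rw [Submodule.nontrivial_iff_ne_bot]
    intro h
    exact h12 (sub_eq_zero.1 (LinearMap.range_eq_bot.1 h))
  obtain ⟨c, hc⟩ := Module.End.exists_eigenvalue (T.restrict hT)
  obtain ⟨v, hv⟩ := hc.exists_hasEigenvector
  have hv1 : T (v : V) = c • (v : V) := congrArg Subtype.val hv.apply_eq_smul
  refine ⟨c, ?_⟩
  have hBm : ∀ j, ∀ u ∈ pU s, pB s a j u ∈ pU s := by
    intro j u _
    exact Submodule.neg_mem _ ⟨a j u, rfl⟩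
  have hDm : ∀ j, ∀ u ∈ pU s, pD s si a j u ∈ pU s := by
    intro j u _
    exact Submodule.neg_mem _ ⟨a j ((s 2 - 1) (si u)), rfl⟩
  rcases gb2_pU_simple (U' := pU s ⊓ LinearMap.ker (T - c • (1 : Module.End K V))) hm hP hF hC hB hirr
    inf_le_left
    (by
      rintro w ⟨hw, hw2⟩
      refine ⟨hB.smem w hw, ?_⟩
      have hw3 : T w - c • w = 0 := hw2
      show T (s 1 w) - c • s 1 w = 0
      rw [h1 w hw, sub_eq_zero.1 hw3, map_smul, sub_self])
    (by
      rintro j w ⟨hw, hw2⟩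
      refine ⟨hBm j w hw, ?_⟩
      have hw3 : T w - c • w = 0 := hw2
      show T (pB s a j w) - c • pB s a j w = 0
      rw [h2 j w hw, sub_eq_zero.1 hw3, map_smul, sub_self])
    (by
      rintro j w ⟨hw, hw2⟩
      refine ⟨hDm j w hw, ?_⟩
      have hw3 : T w - c • w = 0 := hw2
      show T (pD s si a j w) - c • pD s si a j w = 0
      rw [h3 j w hw, sub_eq_zero.1 hw3, map_smul, sub_self]) with h | h
  · exfalso
    have hvm : (v : V) ∈ pU s ⊓ LinearMap.ker (T - c • (1 : Module.End K V)) := by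
      refine ⟨v.2, ?_⟩
      show T (v : V) - c • (v : V) = 0
      rw [hv1, sub_self]
    rw [h] at hvm
    exact hv.2 (Subtype.ext ((Submodule.mem_bot K).1 hvm))
  · intro u hu
    rw [← h] at hu
    have h4 : T u - c • u = 0 := hu.2
    exact sub_eq_zero.1 h4

end Master

section Main

variable {K V J : Type*} [Field K] [IsAlgClosed K] [AddCommGroup V] [Module K V]
  [FiniteDimensional K V] [LinearOrder J]

/-- the explicit representation attached to `q`, `D`, `E` -/
structure GBOut (m : ℤ) (s : ℤ → Module.End K V) (a : J → Module.End K V) (ξ η : J → J → K)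
    {U : Type*} [AddCommGroup U] [Module K U] (q : K) (D E : J → Module.End K U)
    (u : ℤ → (U →ₗ[K] V)) (X : J → (U →ₗ[K] V)) : Prop where
  q0 : q ≠ 0
  uinj : ∀ x, 1 ≤ x → x ≤ m → Function.Injective (u x)
  span : (⨆ x : Set.Icc 1 m, LinearMap.range (u x)) ⊔ (⨆ j, LinearMap.range (X j)) = ⊤
  irr : ∀ W : Submodule K U, (∀ j, ∀ v ∈ W, D j v ∈ W) → (∀ j, ∀ v ∈ W, E j v ∈ W) →
    W = ⊥ ∨ W = ⊤
  dinj : ∀ j, Function.Injective (D j)
  einj : ∀ j, Function.Injective (E j)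
  de0 : ∀ i v, D i (E i v) = E i (D i v)
  dd : ∀ i j, i < j → ∀ v, D i (D j v) = (ξ i j + η i j) • D j (D i v)
  de : ∀ i j, i < j → ∀ v, D i (E j v) = (η i j + q * ξ i j) • E j (D i v)
  ed : ∀ i j, i < j → ∀ v, E i (D j v) = (η i j + q * ξ i j) • D j (E i v)
  s1 : ∀ x, 1 ≤ x → x ≤ m → ∀ v, s x (u x v) = u x v - (1 + q) • u x v
  s2 : ∀ x, 1 ≤ x → x + 1 ≤ m → ∀ v, s (x + 1) (u x v) = u x v - u (x + 1) v
  s3 : ∀ x, 1 ≤ x → x + 1 ≤ m → ∀ v, s x (u (x + 1) v) = u (x + 1) v - q • u x v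
  s4 : ∀ x y, 1 ≤ x → x ≤ m → 1 ≤ y → y ≤ m → (x + 2 ≤ y ∨ y + 2 ≤ x) → ∀ v, s x (u y v) = u y v
  x1 : ∀ j v, s 1 (X j v) = X j v - u 1 (E j v - q • D j v)
  x2 : ∀ j x, 2 ≤ x → x ≤ m → ∀ v, s x (X j v) = X j v
  a1 : ∀ j v, a j (u 1 v) = X j v + u 1 (D j v)
  a2 : ∀ j x, 2 ≤ x → x ≤ m → ∀ v, a j (u x v) = u x (D j v)
  aeq : ∀ j v, a j (X j v) = X j (E j v)
  alt : ∀ i j, i < j → ∀ v, a i (X j v) =
    (η i j + q * ξ i j) • X j (D i v) + X i (E j v - q • D j v)
  agt : ∀ i j, i < j → ∀ v, (ξ i j + η i j) • a j (X i v) =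
    X i (D j v) + X j ((q⁻¹ * (η i j + q * ξ i j)) • E i v - (ξ i j + η i j) • D i v)

theorem gb_main {m : ℤ} (hm : 11 ≤ m) {s : ℤ → Module.End K V} {si : Module.End K V}
    {a : J → Module.End K V} {ξ η : J → J → K} (hP : GSys m s si a ξ η) (hF : FarZ m s)
    (hC : ∀ x, 1 ≤ x → x + 1 ≤ m → cE s x = 0) (hB : GBFacts s si a ξ η) (hirr : Irr m s a)
    (h12 : s 1 ≠ 1) :
    ∃ (q : K) (D E : J → Module.End K (pU s)) (u : ℤ → (pU s →ₗ[K] V))
      (X : J → (pU s →ₗ[K] V)), u 1 = (pU s).subtype ∧ GBOut m s a ξ η q D E u X := by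
  have hBm : ∀ j, ∀ u ∈ pU s, pB s a j u ∈ pU s := by
    intro j u _
    exact Submodule.neg_mem _ ⟨a j u, rfl⟩
  have hDm : ∀ j, ∀ u ∈ pU s, pD s si a j u ∈ pU s := by
    intro j u _
    exact Submodule.neg_mem _ ⟨a j ((s 2 - 1) (si u)), rfl⟩
  have hEm : ∀ j, ∀ u ∈ pU s, pE s si a j u ∈ pU s := by
    intro j u hu
    exact Submodule.sub_mem _ (hBm j u hu) (hDm j u hu)
  have hne : pU s ≠ ⊥ := by
    intro h
    exact h12 (sub_eq_zero.1 (LinearMap.range_eq_bot.1 h))
  obtain ⟨v0, hv0, hv0'⟩ := Submodule.exists_mem_ne_zero_of_ne_bot hne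
  -- the scalar
  obtain ⟨c, hc⟩ := gb2_pU_scal hm hP hF hC hB hirr h12 (T := s 1) hB.smem (fun _ _ => rfl)
    (fun j u hu => (hB.bs j u hu).symm) (fun j u hu => (hB.ds j u hu).symm)
  obtain ⟨q, rfl⟩ : ∃ q, c = -q := ⟨-c, (neg_neg c).symm⟩
  have hq : q ≠ 0 := by
    rintro rfl
    apply hv0'
    apply hP.inj 1 ⟨le_rfl, by omega⟩
    rw [hc v0 hv0, neg_zero, zero_smul, map_zero]
  have hs1' : ∀ v ∈ pU s, s 1 v = -(q • v) := by
    intro v hv
    rw [hc v hv, neg_smul]
  have hs1 : ∀ v : pU s, s 1 (v : V) = -(q • (v : V)) := fun v => hs1' v v.2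
  have hsi : ∀ v ∈ pU s, si v = -(q⁻¹ • v) := by
    intro v hv
    have h5 : si (s 1 v) = v := LinearMap.congr_fun hP.inv2 v
    rw [hc v hv, map_smul] at h5
    have h6 : -(q⁻¹ • v) = -(q⁻¹ • ((-q) • si v)) := by rw [h5]
    rw [h6, smul_smul, mul_neg, inv_mul_cancel₀ hq, neg_smul, one_smul, neg_neg]
  -- the operators
  obtain ⟨D, hD⟩ : ∃ D : J → Module.End K (pU s), ∀ j (v : pU s),
      ((D j v : pU s) : V) = pD s si a j (v : V) :=
    ⟨fun j => (pD s si a j).restrict (hDm j), fun j v => rfl⟩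
  obtain ⟨E, hE⟩ : ∃ E : J → Module.End K (pU s), ∀ j (v : pU s),
      ((E j v : pU s) : V) = pE s si a j (v : V) :=
    ⟨fun j => (pE s si a j).restrict (hEm j), fun j v => rfl⟩
  have hEB : ∀ j (v : pU s), pB s a j (v : V) = (E j v : V) + (D j v : V) := by
    intro j v
    rw [hE, hD]
    show _ = (pB s a j (v : V) - pD s si a j (v : V)) + pD s si a j (v : V)
    abel
  have hpE : ∀ j (v : V), pE s si a j v = pB s a j v - pD s si a j v := fun j v => rfl
  -- relations
  have dd : ∀ i j, i < j → ∀ v, D i (D j v) = (ξ i j + η i j) • D j (D i v) := by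
    intro i j hij v
    apply Subtype.ext
    rw [Submodule.coe_smul, hD, hD, hD, hD]
    exact hB.dd i j hij v v.2
  have de : ∀ i j, i < j → ∀ v, D i (E j v) = (η i j + q * ξ i j) • E j (D i v) := by
    intro i j hij v
    apply Subtype.ext
    rw [Submodule.coe_smul, hD, hE, hB.de i j hij v v.2, ← hD, ← hE, hs1, add_smul, mul_comm q,
      mul_smul, smul_neg]
    abel
  have ed : ∀ i j, i < j → ∀ v, E i (D j v) = (η i j + q * ξ i j) • D j (E i v) := by
    intro i j hij v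
    apply Subtype.ext
    rw [Submodule.coe_smul, hE, hD, hB.ed i j hij v v.2, ← hE, ← hD, hs1, add_smul, mul_comm q,
      mul_smul, smul_neg]
    abel
  have de0 : ∀ i v, D i (E i v) = E i (D i v) := by
    intro i v
    apply Subtype.ext
    rw [hD, hE, hE, hD, hpE, hpE, map_sub, hB.db i v v.2]
  have dinj : ∀ j v, D j v = 0 → v = 0 := by
    intro j v h
    apply Subtype.ext
    refine hB.dinj j v v.2 ?_
    rw [← hD, h]
    rfl
  have he1 : ∀ j (v : pU s), s 1 (a j (v : V)) = a j (v : V) - ((E j v : V) + (D j v : V)) := by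
    intro j v
    rw [← hEB]
    show s 1 (a j (v : V)) = a j (v : V) - -(s 1 (a j (v : V)) - a j (v : V))
    abel
  obtain ⟨X, hX⟩ : ∃ X : J → (pU s →ₗ[K] V), ∀ j v, X j v = a j (v : V) - (D j v : V) :=
    ⟨fun j => a j ∘ₗ (pU s).subtype - (pU s).subtype ∘ₗ D j, fun j v => rfl⟩
  have haX : ∀ j (v : pU s), a j (v : V) = X j v + (D j v : V) := by
    intro j v
    rw [hX]
    abel
  obtain ⟨u, hu⟩ : ∃ u : ℤ → (pU s →ₗ[K] V), u = fun x => bu2_pu s (x - 1).toNat := ⟨_, rfl⟩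
  have hux : ∀ n : ℕ, u ((n : ℤ) + 1) = bu2_pu s n := by
    intro n
    rw [hu]
    show bu2_pu s ((n : ℤ) + 1 - 1).toNat = bu2_pu s n
    congr 1
    omega
  have hux2 : ∀ n : ℕ, u ((n : ℤ) + 1 + 1) = bu2_pu s (n + 1) := by
    intro n
    rw [hu]
    show bu2_pu s ((n : ℤ) + 1 + 1 - 1).toNat = bu2_pu s (n + 1)
    congr 1
    omega
  have hu1 : u 1 = (pU s).subtype := by
    rw [hu]
    show bu2_pu s ((1 : ℤ) - 1).toNat = (pU s).subtype
    have e : ((1 : ℤ) - 1).toNat = 0 := by norm_num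
    rw [e]
    rfl
  have toN : ∀ x : ℤ, 1 ≤ x → ∃ n : ℕ, x = (n : ℤ) + 1 := fun x hx => ⟨(x - 1).toNat, by omega⟩
  -- `s x` on `u x`
  have own : ∀ n : ℕ, (n : ℤ) + 1 ≤ m → ∀ v,
      s ((n : ℤ) + 1) (bu2_pu s n v) = -(q • bu2_pu s n v) := by
    intro n
    induction n with
    | zero =>
      intro _ v
      have e : ((0 : ℕ) : ℤ) + 1 = 1 := by norm_num
      rw [e]
      exact hs1 v
    | succ n ih =>
      intro hn v
      have e : ((n + 1 : ℕ) : ℤ) + 1 = (n : ℤ) + 1 + 1 := by push_cast; ring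
      rw [e] at hn ⊢
      rw [bu2_pu_succ, map_neg, bu2_s_up (hP.chain.braid ((n : ℤ) + 1) ⟨by omega, by omega⟩
        ((n : ℤ) + 1 + 1) ⟨by omega, by omega⟩ (hum_chain (by omega))) (hC _ (by omega) hn)
        (bu2_pu_mem n v), ih (by omega) v, map_neg, map_smul, smul_neg]
  have prv : ∀ n : ℕ, (n : ℤ) + 1 + 1 ≤ m → ∀ v,
      s ((n : ℤ) + 1) (bu2_pu s (n + 1) v) = bu2_pu s (n + 1) v - q • bu2_pu s n v := by
    intro n hn v
    have h1 := bu2_psi_up (hC ((n : ℤ) + 1) (by omega) hn) (bu2_pu_mem n v)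
    rw [own n (by omega) v, neg_neg] at h1
    have h2 : s ((n : ℤ) + 1) (bu2_pu s (n + 1) v) = bu2_pu s (n + 1) v +
        (s ((n : ℤ) + 1) - 1) (bu2_pu s (n + 1) v) := by
      show _ = bu2_pu s (n + 1) v + (s ((n : ℤ) + 1) (bu2_pu s (n + 1) v) - bu2_pu s (n + 1) v)
      abel
    rw [h2, bu2_pu_succ, map_neg, h1]
    abel
  have fr : ∀ (n : ℕ) (x : ℤ), 1 ≤ x → x ≤ m → (n : ℤ) + 1 ≤ m →
      (x + 2 ≤ (n : ℤ) + 1 ∨ (n : ℤ) + 1 + 2 ≤ x) → ∀ v, s x (bu2_pu s n v) = bu2_pu s n v := by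
    intro n x hx hxm hn h v
    exact sub_eq_zero.1 (bu2_far_fix hF hx hxm (by omega) hn h (bu2_pu_mem n v))
  have e3 : ∀ x, 3 ≤ x → x ≤ m → ∀ v ∈ pU s, s x v = v := by
    intro x hx hxm v hv
    exact sub_eq_zero.1 (bu2_far_fix hF (y := 1) (by omega) hxm le_rfl (by omega) (by omega) hv)
  have e3a : ∀ j x, 3 ≤ x → x ≤ m → ∀ v : pU s, s x (a j (v : V)) = a j (v : V) := by
    intro j x hx hxm v
    have h4 := LinearMap.congr_fun (hP.far j x (by omega) hxm) (v : V)
    have h5 : a j (s x (v : V)) = s x (a j (v : V)) := h4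
    rw [← h5, e3 x hx hxm v v.2]
  have au : ∀ j (n : ℕ), (n : ℤ) + 1 + 1 ≤ m → ∀ v,
      a j (bu2_pu s (n + 1) v) = bu2_pu s (n + 1) (D j v) := by
    intro j n
    induction n with
    | zero =>
      intro _ v
      have e : ((0 : ℕ) : ℤ) + 1 + 1 = 2 := by norm_num
      have h1 := hB.act2 j v v.2
      rw [bu2_pu_succ, bu2_pu_succ, e, map_neg]
      have h2 : (bu2_pu s 0 (D j v) : V) = pD s si a j (v : V) := hD j v
      rw [h2]
      exact congrArg Neg.neg h1
    | succ n ih =>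
      intro hn v
      have hn' : (n : ℤ) + 1 + 1 ≤ m := by push_cast at hn; omega
      have h4 := LinearMap.congr_fun (hP.far j (((n + 1 : ℕ) : ℤ) + 1 + 1) (by push_cast; omega) hn)
        (bu2_pu s (n + 1) v)
      have h5 : a j (s (((n + 1 : ℕ) : ℤ) + 1 + 1) (bu2_pu s (n + 1) v)) =
        s (((n + 1 : ℕ) : ℤ) + 1 + 1) (a j (bu2_pu s (n + 1) v)) := h4
      rw [bu2_pu_succ' (n + 1) v, map_sub, h5, ih hn' v, ← bu2_pu_succ' (n + 1) (D j v)]
  refine ⟨q, D, E, u, X, hu1, ?_⟩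
  refine
    { q0 := hq
      uinj := ?_
      span := ?_
      irr := ?_
      dinj := fun j => (injective_iff_map_eq_zero _).2 (dinj j)
      einj := ?_
      de0 := de0
      dd := dd
      de := de
      ed := ed
      s1 := ?_
      s2 := ?_
      s3 := ?_
      s4 := ?_
      x1 := ?_
      x2 := ?_
      a1 := ?_
      a2 := ?_
      aeq := ?_
      alt := ?_
      agt := ?_ }
  · -- uinj
    have h : ∀ n : ℕ, (n : ℤ) + 1 ≤ m → ∀ v, bu2_pu s n v = 0 → v = 0 := by
      intro n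
      induction n with
      | zero => intro _ v hv; exact Subtype.ext hv
      | succ n ih =>
        intro hn v hv
        push_cast at hn
        have h1 := prv n hn v
        rw [hv, map_zero, zero_sub] at h1
        have h2 : q • bu2_pu s n v = 0 := neg_eq_zero.1 h1.symm
        exact ih (by omega) v ((smul_eq_zero.1 h2).resolve_left hq)
    intro x hx hxm
    obtain ⟨n, rfl⟩ := toN x hx
    rw [hux]
    exact (injective_iff_map_eq_zero _).2 (fun v hv => h n hxm v hv)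
  · -- span
    have ht := gb2_pN_top (U' := pU s) hm hP hF hC hB hirr le_rfl hB.smem hBm hDm hne
    have hmem : ∀ n : ℕ, (n : ℤ) + 1 ≤ m → ∀ v, bu2_pu s n v ∈
        (⨆ x : Set.Icc 1 m, LinearMap.range (u x)) ⊔ (⨆ j, LinearMap.range (X j)) := by
      intro n hn v
      refine Submodule.mem_sup_left (Submodule.mem_iSup_of_mem
        (⟨(n : ℤ) + 1, by omega, hn⟩ : Set.Icc 1 m) ?_)
      exact ⟨v, by rw [hux]⟩
    rw [eq_top_iff, ← ht]
    refine bu2_pN_le ?_ ?_
    · intro n hn z hz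
      have h : ∀ n : ℕ, ∀ z ∈ bu2_pX s (pU s) n, ∃ v, bu2_pu s n v = z := by
        intro n
        induction n with
        | zero => intro z hz; exact ⟨⟨z, hz⟩, rfl⟩
        | succ n ih =>
          rintro _ ⟨z, hz, rfl⟩
          obtain ⟨v, rfl⟩ := ih z hz
          refine ⟨-v, ?_⟩
          rw [map_neg, bu2_pu_succ, neg_neg]
      obtain ⟨v, hv⟩ := h n z hz
      rw [← hv]
      exact hmem n hn v
    · intro j z hz
      have h1 : a j z = X j ⟨z, hz⟩ + bu2_pu s 0 (D j ⟨z, hz⟩) := haX j ⟨z, hz⟩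
      rw [h1]
      refine Submodule.add_mem _ (Submodule.mem_sup_right (Submodule.mem_iSup_of_mem j
        ⟨_, rfl⟩)) (hmem 0 (by push_cast; omega) _)
  · -- irr
    intro W hWD hWE
    have h := gb2_pU_simple (U' := W.map (pU s).subtype) hm hP hF hC hB hirr
      (by rintro _ ⟨v, _, rfl⟩; exact v.2)
      (by
        rintro _ ⟨v, hv, rfl⟩
        refine ⟨-(q • v), W.neg_mem (W.smul_mem _ hv), ?_⟩
        exact (hs1 v).symm)
      (by
        rintro j _ ⟨v, hv, rfl⟩
        refine ⟨E j v + D j v, W.add_mem (hWE j v hv) (hWD j v hv), ?_⟩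
        exact (hEB j v).symm)
      (by
        rintro j _ ⟨v, hv, rfl⟩
        refine ⟨D j v, hWD j v hv, ?_⟩
        exact hD j v)
    rcases h with h | h
    · left
      rw [eq_bot_iff]
      intro v hv
      have h3 : (v : V) ∈ W.map (pU s).subtype := ⟨v, hv, rfl⟩
      rw [h] at h3
      exact (Submodule.mem_bot K).2 (Subtype.ext ((Submodule.mem_bot K).1 h3))
    · right
      rw [eq_top_iff]
      intro v _
      have h3 : (v : V) ∈ W.map (pU s).subtype := by rw [h]; exact v.2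
      obtain ⟨v', hv', h4⟩ := h3
      have h5 : v' = v := Subtype.ext h4
      rw [← h5]
      exact hv'
  · -- einj
    intro j
    refine (injective_iff_map_eq_zero _).2 fun v hv => ?_
    have hE0 : (E j v : V) = 0 := by rw [hv]; rfl
    have hBD : pB s a j (v : V) = (D j v : V) := by rw [hEB, hE0, zero_add]
    have hED : E j (D j v) = 0 := by rw [← de0, hv, map_zero]
    have hED0 : (E j (D j v) : V) = 0 := by rw [hED]; rfl
    have h1 := hB.own j v v.2
    rw [← hD j v, ← hD j (D j v), hEB j (D j v), hBD, hED0, zero_add, add_sub_cancel_right] at h1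
    -- `h1 : a j (a j v) = a j (D j v)`
    have h2 : s 1 (a j (v : V)) = a j (v : V) - (D j v : V) := by
      rw [he1, hE0, zero_add]
    have h3 : a j (s 1 (a j (v : V))) = 0 := by rw [h2, map_sub, h1, sub_self]
    have h4 : s 1 (a j (v : V)) = 0 := hP.ainj j (by rw [h3, map_zero])
    have h5 : a j (v : V) = 0 := hP.inj 1 ⟨le_rfl, by omega⟩ (by rw [h4, map_zero])
    have h6 : (v : V) = 0 := hP.ainj j (by rw [h5, map_zero])
    exact Subtype.ext h6
  · -- s1
    intro x hx hxm v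
    obtain ⟨n, rfl⟩ := toN x hx
    rw [hux, own n hxm v, add_smul, one_smul]
    abel
  · -- s2
    intro x hx hxm v
    obtain ⟨n, rfl⟩ := toN x hx
    rw [hux, hux2, bu2_pu_succ']
    abel
  · -- s3
    intro x hx hxm v
    obtain ⟨n, rfl⟩ := toN x hx
    rw [hux, hux2, prv n hxm v]
  · -- s4
    intro x y hx hxm hy hym h v
    obtain ⟨n, rfl⟩ := toN y hy
    rw [hux]
    exact fr n x hx hxm hym h v
  · -- x1
    intro j v
    rw [hX, map_sub, he1, hs1, hu1]
    show _ = a j (v : V) - (D j v : V) - ((E j v : V) - q • (D j v : V))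
    abel
  · -- x2
    intro j x hx hxm v
    rcases eq_or_lt_of_le hx with rfl | hx3
    · have h1 := hB.act2' j v v.2
      rw [← hD] at h1
      have h2 : s 2 (a j (v : V)) - a j (v : V) = s 2 (D j v : V) - (D j v : V) := h1
      rw [hX, map_sub]
      have h3 : s 2 (a j (v : V)) = (s 2 (a j (v : V)) - a j (v : V)) + a j (v : V) := by abel
      rw [h3, h2]
      abel
    · rw [hX, map_sub, e3a j x (by omega) hxm v, e3 x (by omega) hxm _ (D j v).2]
  · -- a1
    intro j v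
    rw [hu1]
    exact haX j v
  · -- a2
    intro j x hx hxm v
    obtain ⟨n, rfl⟩ : ∃ n : ℕ, x = (n : ℤ) + 1 + 1 := ⟨(x - 2).toNat, by omega⟩
    rw [hux2]
    exact au j n hxm v
  · -- aeq
    intro j v
    have h1 := hB.own j v v.2
    rw [← hD j v, ← hD j (D j v), hEB j v, hEB j (D j v), map_add] at h1
    rw [hX, map_sub, h1, hX, de0]
    abel
  · -- alt
    intro i j hij v
    have h1 := hB.lo i j hij v v.2
    have k1 : pD s si a j (s 1 (v : V)) = -(q • (D j v : V)) := by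
      rw [hs1, map_neg, map_smul, hD]
    have k2 : s 1 (pD s si a i (v : V)) = -(q • (D i v : V)) := by rw [← hD, hs1]
    have k3 : pD s si a j (s 1 (pD s si a i (v : V))) = -(q • (D j (D i v) : V)) := by
      rw [k2, map_neg, map_smul, ← hD]
    have k4 : pB s a j (s 1 (pD s si a i (v : V))) =
        -(q • ((E j (D i v) : V) + (D j (D i v) : V))) := by
      rw [k2, map_neg, map_smul, hEB]
    have k5 : pB s a j (pD s si a i (v : V)) = (E j (D i v) : V) + (D j (D i v) : V) := by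
      rw [← hD, hEB]
    rw [k3, k4, k5, k2, k1, hEB j v, ← hD i v] at h1
    have k6 : (D i (E j v - q • D j v) : V) = (η i j + q * ξ i j) • (E j (D i v) : V) -
        q • (ξ i j + η i j) • (D j (D i v) : V) := by
      rw [map_sub, map_smul, de i j hij, dd i j hij]
      rfl
    have k7 : ((E j v - q • D j v : pU s) : V) = (E j v : V) - q • (D j v : V) := rfl
    have k8 : (D i (D j v) : V) = (ξ i j + η i j) • (D j (D i v) : V) := by
      rw [dd i j hij]
      rfl
    rw [hX i (E j v - q • D j v), k6, k7, hX j v, map_sub (a i), h1, hX j (D i v)]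
    simp only [map_add, map_sub, map_neg, map_smul, smul_add, smul_sub, smul_neg, add_smul,
      smul_smul]
    have c1 : ξ i j * q = q * ξ i j := mul_comm _ _
    have c2 : η i j * q = q * η i j := mul_comm _ _
    rw [c1, c2]
    abel
  · -- agt
    intro i j hij v
    have h1 := hB.hi i j hij v v.2
    have k1 : pD s si a i (v : V) - pB s a i (v : V) = -(E i v : V) := by
      rw [hEB, ← hD]
      abel
    have k2 : si (-(E i v : V)) = q⁻¹ • (E i v : V) := by
      rw [map_neg, hsi _ (E i v).2, neg_neg]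
    have k3 : pB s a i (pD s si a j (v : V)) - (ξ i j + η i j) •
        pD s si a j (pD s si a i (v : V)) = (E i (D j v) : V) := by
      rw [← hD j v, ← hD i v, hEB i (D j v), ← hD j (D i v), dd i j hij]
      show (E i (D j v) : V) + (ξ i j + η i j) • (D j (D i v) : V) -
        (ξ i j + η i j) • (D j (D i v) : V) = _
      abel
    rw [k1, k2, k3, hsi _ (E i (D j v)).2, ← hD j v] at h1
    have k4 : ((q⁻¹ * (η i j + q * ξ i j)) • E i v - (ξ i j + η i j) • D i v : pU s) =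
        (((η i j * q⁻¹) • E i v + ξ i j • E i v) - (ξ i j + η i j) • D i v : pU s) := by
      rw [← add_smul]
      congr 2
      field_simp
    have k5 : (D j ((q⁻¹ * (η i j + q * ξ i j)) • E i v - (ξ i j + η i j) • D i v) : V) =
        q⁻¹ • (E i (D j v) : V) - (ξ i j + η i j) • (D j (D i v) : V) := by
      rw [map_sub, map_smul, map_smul, mul_smul, ← ed i j hij]
      rfl
    have k6 : (D i (D j v) : V) = (ξ i j + η i j) • (D j (D i v) : V) := by
      rw [dd i j hij]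
      rfl
    rw [hX i v, map_sub, smul_sub, h1, hX i (D j v), hX j, k5, k6, k4]
    have k7 : (((η i j * q⁻¹) • E i v + ξ i j • E i v - (ξ i j + η i j) • D i v : pU s) : V) =
        (η i j * q⁻¹) • (E i v : V) + ξ i j • (E i v : V) - (ξ i j + η i j) • (D i v : V) := rfl
    rw [k7]
    simp only [map_add, map_sub, map_neg, map_smul, smul_neg, add_smul, smul_smul]
    abel

end Main

end Pool.Agent.PCG
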