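import Pool.Agent.Lib.PCG.Defs

/-!
# Module GT3 (variant of PCF.TY3): the induced representations (crossed elements not zero)

(M) as in `PCF.TY3`. (S) only `A = s1 s1` becomes a scalar `τ` on `F` (its eigenspaces in `F` are
stable under the `a j` and the `b k`: sa, sb), `τ /= 0, 1` as before; every `U' <= F` stable under
all `a j` and all `b k` is `0` or `F`. (O) as before, with `be k = b k` restricted to `F` instead of
a scalar: `a j (v y f) = v y (si a j s1 f) = v y (b j f)` for `y >= 1`.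
Relations: GTFacts `own`, `ab`, `ba`, `bb` with `A = τ`.
-/

namespace Pool.Agent.PCG

open Pool.Agent.Art Pool.Agent.PCF

variable {K V J : Type*} [Field K] [IsAlgClosed K] [AddCommGroup V] [Module K V]
  [FiniteDimensional K V] [LinearOrder J]

/-- `W y = s y * s (y - 1) * ... * s 1` -/
def gt3_W (s : ℤ → Module.End K V) : ℕ → Module.End K V
  | 0 => 1
  | n + 1 => s ((n : ℤ) + 1) * gt3_W s n

section

omit [IsAlgClosed K] [FiniteDimensional K V]

variable {m : ℤ} {s : ℤ → Module.End K V} {si : Module.End K V} {a : J → Module.End K V}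
  {ξ η : J → J → K}

theorem gt3_W_succ (n : ℕ) (f : V) : gt3_W s (n + 1) f = s ((n : ℤ) + 1) (gt3_W s n f) := rfl

theorem gt3_far (hS : ASys hum (Set.Icc 1 m) s) {x y : ℤ} (hx : 1 ≤ x) (hxm : x ≤ m)
    (hy : 1 ≤ y) (hym : y ≤ m) (h : x + 2 ≤ y ∨ y + 2 ≤ x) (v : V) :
    s x (s y v) = s y (s x v) :=
  LinearMap.congr_fun (hS.comm x ⟨hx, hxm⟩ y ⟨hy, hym⟩ (far_chain hx hy h)) v

theorem gt3_br (hS : ASys hum (Set.Icc 1 m) s) {x : ℤ} (hx : 1 ≤ x) (hxm : x + 1 ≤ m) (v : V) :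
    s x (s (x + 1) (s x v)) = s (x + 1) (s x (s (x + 1) v)) := by
  have b := hS.braid x ⟨hx, by omega⟩ (x + 1) ⟨by omega, hxm⟩ (hum_chain hx)
  have b' := LinearMap.congr_fun b v
  simpa only [Module.End.mul_apply] using b'

theorem gt3_W_far (hS : ASys hum (Set.Icc 1 m) s) :
    ∀ (y : ℕ) (x : ℤ), (y : ℤ) + 2 ≤ x → x ≤ m → ∀ v, s x (gt3_W s y v) = gt3_W s y (s x v) := by
  intro y
  induction y with
  | zero => intro x _ _ v; rfl
  | succ n ih =>
    intro x h1 h2 v
    push_cast at h1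
    rw [gt3_W_succ, gt3_W_succ, gt3_far hS (by omega) h2 (by omega) (by omega) (Or.inr (by omega)),
      ih x (by omega) h2]

theorem gt3_W_lo (hS : ASys hum (Set.Icc 1 m) s) :
    ∀ (y : ℕ) (x : ℤ), (y : ℤ) ≤ m → 1 ≤ x → x < y → ∀ v,
      s x (gt3_W s y v) = gt3_W s y (s (x + 1) v) := by
  intro y
  induction y with
  | zero => intro x _ h1 h2 v; push_cast at h2; omega
  | succ n ih =>
    intro x hy h1 h2 v
    push_cast at hy h2
    rcases lt_or_ge x n with h | h
    · rw [gt3_W_succ, gt3_W_succ, gt3_far hS h1 (by omega) (by omega) (by omega) (Or.inl (by omega)),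
        ih x (by omega) h1 h]
    · have hx : x = n := by omega
      obtain ⟨k, rfl⟩ : ∃ k : ℕ, n = k + 1 := ⟨n - 1, by omega⟩
      subst hx
      push_cast at hy h1 ⊢
      rw [gt3_W_succ, gt3_W_succ, gt3_W_succ, gt3_W_succ]
      push_cast
      rw [gt3_br hS (by omega) (by omega), gt3_W_far hS k _ (by omega) (by omega)]

theorem gt3_W_fix (hP : GSys m s si a ξ η) (hT : GTFacts m s si a ξ η) {f : V} (hf : f ∈ pF s si a)
    (y : ℕ) (x : ℤ) (hy : (y : ℤ) ≤ m) (h1 : 1 ≤ x) (h2 : x ≤ m) (h3 : x ≠ y) (h4 : x ≠ y + 1) :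
    s x (gt3_W s y f) = gt3_W s y f := by
  rcases lt_or_ge x y with h | h
  · rw [gt3_W_lo hP.chain y x hy h1 h, hT.fix (x + 1) (by omega) (by omega) f hf]
  · rw [gt3_W_far hP.chain y x (by omega) h2, hT.fix x (by omega) h2 f hf]

theorem gt3_W_sq (hP : GSys m s si a ξ η) (hT : GTFacts m s si a ξ η) :
    ∀ (n : ℕ), (n : ℤ) + 1 ≤ m → ∀ f ∈ pF s si a,
      s ((n : ℤ) + 1) (gt3_W s (n + 1) f) = gt3_W s n (s 1 (s 1 f)) := by
  intro n
  induction n with
  | zero =>
    intro _ f _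
    show s (((0 : ℕ) : ℤ) + 1) (s (((0 : ℕ) : ℤ) + 1) f) = s 1 (s 1 f)
    norm_num
  | succ n ih =>
    intro hn f hf
    push_cast at hn
    have hA := hT.smem f hf
    have i1 := ih (by omega) f hf
    have g1 := gt3_W_fix hP hT hf n ((n : ℤ) + 1 + 1) (by omega) (by omega) (by omega) (by omega)
      (by omega)
    have g2 := gt3_W_fix hP hT hA n ((n : ℤ) + 1 + 1) (by omega) (by omega) (by omega) (by omega)
      (by omega)
    rw [gt3_W_succ] at i1
    rw [gt3_W_succ (n + 1), gt3_W_succ n (s 1 (s 1 f)), gt3_W_succ n f]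
    push_cast
    rw [← i1]
    have b := gt3_br hP.chain (x := (n : ℤ) + 1) (by omega) (by omega)
    calc s ((n : ℤ) + 1 + 1) (s ((n : ℤ) + 1 + 1) (s ((n : ℤ) + 1) (gt3_W s n f)))
        = s ((n : ℤ) + 1 + 1) (s ((n : ℤ) + 1 + 1) (s ((n : ℤ) + 1)
            (s ((n : ℤ) + 1 + 1) (gt3_W s n f)))) := by rw [g1]
      _ = s ((n : ℤ) + 1 + 1) (s ((n : ℤ) + 1) (s ((n : ℤ) + 1 + 1)
            (s ((n : ℤ) + 1) (gt3_W s n f)))) := by rw [← b]
      _ = s ((n : ℤ) + 1) (s ((n : ℤ) + 1 + 1) (s ((n : ℤ) + 1)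
            (s ((n : ℤ) + 1) (gt3_W s n f)))) := by rw [← b]
      _ = s ((n : ℤ) + 1) (s ((n : ℤ) + 1) (s ((n : ℤ) + 1) (gt3_W s n f))) := by
          rw [i1, g2]

theorem gt3_W_a (hP : GSys m s si a ξ η) (j : J) :
    ∀ (n : ℕ), (n : ℤ) + 1 ≤ m → ∀ f : V,
      a j (gt3_W s (n + 1) f) = gt3_W s (n + 1) (si (a j (s 1 f))) := by
  intro n
  induction n with
  | zero =>
    intro _ f
    show a j (s (((0 : ℕ) : ℤ) + 1) f) = s (((0 : ℕ) : ℤ) + 1) (si (a j (s 1 f)))
    have e : (((0 : ℕ) : ℤ) + 1) = 1 := by norm_num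
    rw [e]
    exact (LinearMap.congr_fun hP.inv1 (a j (s 1 f))).symm
  | succ n ih =>
    intro hn f
    push_cast at hn
    have hf := LinearMap.congr_fun (hP.far j ((n : ℤ) + 1 + 1) (by omega) (by omega))
      (gt3_W s (n + 1) f)
    have hf' : a j (s ((n : ℤ) + 1 + 1) (gt3_W s (n + 1) f)) =
      s ((n : ℤ) + 1 + 1) (a j (gt3_W s (n + 1) f)) := hf
    rw [gt3_W_succ (n + 1), gt3_W_succ (n + 1)]
    push_cast
    rw [hf', ih (by omega)]

/-- `A (si (a j (s 1 f))) = b j (A f)` -/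
theorem gt3_side (hP : GSys m s si a ξ η) (j : J) (f : V) :
    s 1 (s 1 (si (a j (s 1 f)))) = pb s si a j (s 1 (s 1 f)) := by
  have h1 := LinearMap.congr_fun hP.inv1 (a j (s 1 f))
  have h2 := LinearMap.congr_fun hP.inv2 (s 1 f)
  have h1' : s 1 (si (a j (s 1 f))) = a j (s 1 f) := h1
  have h2' : si (s 1 (s 1 f)) = s 1 f := h2
  show _ = s 1 (a j (si (s 1 (s 1 f))))
  rw [h1', h2']

theorem gt3_C0_apply (f : V) : pC s si f = si (cE s 1 (s 1 f)) := rfl

theorem gt3_cE_zero {v : V} (h : s 1 v = v) : cE s 1 v = 0 := by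
  have e : (s 1 - 1) v = 0 := by
    show s 1 v - v = 0
    rw [h, sub_self]
  show (s 1 - 1) v + (s 1 - 1) ((s 1 - 1) v) + (s 1 - 1) ((s (1 + 1) - 1) ((s 1 - 1) v)) = 0
  rw [e]
  simp only [map_zero, add_zero]

theorem gt3_C0_W (hP : GSys m s si a ξ η) (hT : GTFacts m s si a ξ η) {f : V} (hf : f ∈ pF s si a) (n : ℕ)
    (hn : (n : ℤ) + 1 ≤ m) : pC s si (gt3_W s (n + 1) f) = 0 := by
  rw [gt3_C0_apply]
  rcases Nat.eq_zero_or_pos n with rfl | h
  · have e : gt3_W s (0 + 1) f = s 1 f := by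
      show s (((0 : ℕ) : ℤ) + 1) f = s 1 f
      norm_num
    rw [e, hT.c1 _ (hT.smem f hf), map_zero]
  · have h1 := gt3_W_fix hP hT hf (n + 1) 1 (by push_cast; omega) le_rfl (by omega)
      (by push_cast; omega) (by push_cast; omega)
    rw [h1, gt3_cE_zero h1, map_zero]

end

section

omit [IsAlgClosed K]

variable {m : ℕ} {s : ℤ → Module.End K V} {si : Module.End K V} {a : J → Module.End K V}
  {ξ η : J → J → K}

/-- the sum of the translates -/
def gt3_N (s : ℤ → Module.End K V) (m : ℕ) (U' : Submodule K V) : Submodule K V :=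
  ⨆ y : Fin (m + 1), U'.map (gt3_W s y)

omit [FiniteDimensional K V] in
theorem gt3_mem_N {U' : Submodule K V} {y : ℕ} (hy : y ≤ m) {u : V} (hu : u ∈ U') :
    gt3_W s y u ∈ gt3_N s m U' :=
  (le_iSup (fun y : Fin (m + 1) => U'.map (gt3_W s y)) ⟨y, by omega⟩) ⟨u, hu, rfl⟩

omit [FiniteDimensional K V] in
theorem gt3_N_ind {U' : Submodule K V} {S : Submodule K V} {T : Module.End K V}
    (h : ∀ y : ℕ, y ≤ m → ∀ u ∈ U', T (gt3_W s y u) ∈ S) : ∀ w ∈ gt3_N s m U', T w ∈ S := by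
  have : gt3_N s m U' ≤ S.comap T := by
    refine iSup_le fun y => ?_
    rintro _ ⟨u, hu, rfl⟩
    exact h y (by omega) u hu
  exact fun w hw => this hw

/-- stability of the sum -/
theorem gt3_N_top (hm : 1 ≤ m) (hP : GSys (m : ℤ) s si a ξ η) (hT : GTFacts (m : ℤ) s si a ξ η)
    (hirr : Irr (m : ℤ) s a) {U' : Submodule K V} (hU : U' ≤ pF s si a)
    (ha : ∀ j, ∀ u ∈ U', a j u ∈ U') (hA : ∀ u ∈ U', s 1 (s 1 u) ∈ U')
    (hb : ∀ k, ∀ u ∈ U', pb s si a k u ∈ U') (hne : U' ≠ ⊥) : gt3_N s m U' = ⊤ := by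
  have hinj : Function.Injective (s 1) := hP.inj 1 ⟨le_rfl, by exact_mod_cast hm⟩
  have hside : ∀ j, ∀ u ∈ U', si (a j (s 1 u)) ∈ U' := by
    intro j u hu
    have hinj2 : Function.Injective ((s 1 * s 1).restrict (p := U') (q := U') hA) := by
      intro p q hpq
      have h1 := congrArg Subtype.val hpq
      exact Subtype.ext (hinj (hinj h1))
    have hsur := LinearMap.injective_iff_surjective.1 hinj2
    obtain ⟨w, hw⟩ := hsur ⟨pb s si a j (s 1 (s 1 u)), hb j _ (hA u hu)⟩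
    have h1 : s 1 (s 1 (w : V)) = pb s si a j (s 1 (s 1 u)) := congrArg Subtype.val hw
    rw [← gt3_side hP] at h1
    have h2 := hinj (hinj h1)
    rw [← h2]
    exact w.2
  have st1 : ∀ x ∈ Set.Icc (1 : ℤ) m, ∀ w ∈ gt3_N s m U', s x w ∈ gt3_N s m U' := by
    intro x hx
    obtain ⟨hx1, hx2⟩ := hx
    refine gt3_N_ind fun y hy u hu => ?_
    have hy' : (y : ℤ) ≤ m := by exact_mod_cast hy
    by_cases c1 : x = y
    · obtain ⟨n, rfl⟩ : ∃ n : ℕ, y = n + 1 := ⟨y - 1, by omega⟩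
      subst c1
      have h1 := gt3_W_sq hP hT n (by push_cast at hy'; exact hy') u (hU hu)
      push_cast
      rw [h1]
      exact gt3_mem_N (by omega) (hA u hu)
    · by_cases c2 : x = y + 1
      · subst c2
        rw [← gt3_W_succ]
        exact gt3_mem_N (by omega) hu
      · rw [gt3_W_fix hP hT (hU hu) y x hy' hx1 hx2 c1 c2]
        exact gt3_mem_N hy hu
  have st2 : ∀ j, ∀ w ∈ gt3_N s m U', a j w ∈ gt3_N s m U' := by
    intro j
    refine gt3_N_ind fun y hy u hu => ?_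
    rcases Nat.eq_zero_or_pos y with rfl | h
    · exact gt3_mem_N (y := 0) (by omega) (ha j u hu)
    · obtain ⟨n, rfl⟩ : ∃ n : ℕ, y = n + 1 := ⟨y - 1, by omega⟩
      rw [gt3_W_a hP j n (by exact_mod_cast hy)]
      exact gt3_mem_N hy (hside j u hu)
  rcases hirr (gt3_N s m U') st1 st2 with h | h
  · exfalso
    apply hne
    rw [eq_bot_iff]
    intro u hu
    have h1 : gt3_W s 0 u ∈ gt3_N s m U' := gt3_mem_N (by omega) hu
    rw [h] at h1
    exact h1
  · exact h

/-- a nonzero stable subspace of `F` is `F` -/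
theorem gt3_F_min (hm : 1 ≤ m) (hP : GSys (m : ℤ) s si a ξ η) (hT : GTFacts (m : ℤ) s si a ξ η)
    (hirr : Irr (m : ℤ) s a) {U' : Submodule K V} (hU : U' ≤ pF s si a)
    (ha : ∀ j, ∀ u ∈ U', a j u ∈ U') (hA : ∀ u ∈ U', s 1 (s 1 u) ∈ U')
    (hb : ∀ k, ∀ u ∈ U', pb s si a k u ∈ U') (hne : U' ≠ ⊥) : U' = pF s si a := by
  have htop := gt3_N_top hm hP hT hirr hU ha hA hb hne
  have hC0 : ∀ w, pC s si w ∈ U' := by
    intro w
    have hw : w ∈ gt3_N s m U' := by rw [htop]; exact Submodule.mem_top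
    refine gt3_N_ind (fun y hy u hu => ?_) w hw
    rcases Nat.eq_zero_or_pos y with rfl | h
    · show pC s si u ∈ U'
      rw [hT.c0 u (hU hu)]
      exact U'.sub_mem (hA u hu) hu
    · obtain ⟨n, rfl⟩ : ∃ n : ℕ, y = n + 1 := ⟨y - 1, by omega⟩
      rw [gt3_C0_W hP hT (hU hu) n (by exact_mod_cast hy)]
      exact U'.zero_mem
  refine le_antisymm hU ?_
  refine iSup_le fun g => ?_
  rintro _ ⟨w, rfl⟩
  show (g : Module.End K V) (pC s si w) ∈ U'
  have hg : ∀ g ∈ pM a, ∀ u ∈ U', g u ∈ U' := by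
    intro g hg
    induction hg using Submonoid.closure_induction with
    | mem x hx =>
      obtain ⟨j, rfl⟩ := hx
      exact ha j
    | one => intro u hu; exact hu
    | mul x y _ _ hx hy => intro u hu; exact hx _ (hy u hu)
  exact hg g g.2 _ (hC0 w)

omit [FiniteDimensional K V] in
theorem gt3_C_ne (hP : GSys (m : ℤ) s si a ξ η) (hC : cE s 1 ≠ 0) : pC s si ≠ 0 := by
  intro h
  apply hC
  have e : s 1 * pC s si * si = cE s 1 := by
    show s 1 * (si * cE s 1 * s 1) * si = cE s 1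
    calc s 1 * (si * cE s 1 * s 1) * si = (s 1 * si) * cE s 1 * (s 1 * si) := by
          simp only [mul_assoc]
      _ = cE s 1 := by rw [hP.inv1, one_mul, mul_one]
  rw [← e, h, mul_zero, zero_mul]

omit [FiniteDimensional K V] in
theorem gt3_F_ne (hP : GSys (m : ℤ) s si a ξ η) (hC : cE s 1 ≠ 0) : pF s si a ≠ ⊥ := by
  intro h
  apply gt3_C_ne hP hC
  rw [← LinearMap.range_eq_bot, eq_bot_iff, ← h]
  have h1 := le_iSup (fun g : pM a => LinearMap.range ((g : Module.End K V) * pC s si)) 1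
  have e : (((1 : pM a) : Module.End K V) * pC s si) = pC s si := by
    rw [Submonoid.coe_one, one_mul]
  rw [e] at h1
  exact h1

end

/-- an operator which commutes with everything is a scalar on `F` -/
theorem gt3_F_scalar {m : ℕ} (hm : 1 ≤ m) {s : ℤ → Module.End K V} {si : Module.End K V}
    {a : J → Module.End K V} {ξ η : J → J → K} (hP : GSys (m : ℤ) s si a ξ η) (hT : GTFacts (m : ℤ) s si a ξ η)
    (hirr : Irr (m : ℤ) s a) (hne : pF s si a ≠ ⊥) (T : Module.End K V)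
    (hT0 : ∀ f ∈ pF s si a, T f ∈ pF s si a)
    (ha : ∀ j, ∀ f ∈ pF s si a, T (a j f) = a j (T f))
    (hA : ∀ f ∈ pF s si a, T (s 1 (s 1 f)) = s 1 (s 1 (T f)))
    (hb : ∀ k, ∀ f ∈ pF s si a, T (pb s si a k f) = pb s si a k (T f)) :
    ∃ t : K, ∀ f ∈ pF s si a, T f = t • f := by
  have hnt : Nontrivial (pF s si a) := Submodule.nontrivial_iff_ne_bot.2 hne
  obtain ⟨t, ht⟩ := Module.End.exists_eigenvalue (T.restrict hT0)
  obtain ⟨v, hv⟩ := ht.exists_hasEigenvector
  have h1 : T (v : V) = t • (v : V) := congrArg Subtype.val hv.apply_eq_smul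
  have hv0 : (v : V) ≠ 0 := fun h => hv.2 (Subtype.ext h)
  let U' : Submodule K V :=
    { carrier := {f | f ∈ pF s si a ∧ T f = t • f}
      add_mem' := fun {p q} hp hq =>
        ⟨(pF s si a).add_mem hp.1 hq.1, by rw [map_add, hp.2, hq.2, smul_add]⟩
      zero_mem' := ⟨(pF s si a).zero_mem, by rw [map_zero, smul_zero]⟩
      smul_mem' := fun c p hp => ⟨(pF s si a).smul_mem c hp.1, by rw [map_smul, hp.2, smul_comm]⟩ }
  have h2 : U' = pF s si a := by
    refine gt3_F_min hm hP hT hirr (fun f hf => hf.1) ?_ ?_ ?_ ?_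
    · intro j u hu
      exact ⟨hT.amem j u hu.1, by rw [ha j u hu.1, hu.2, map_smul]⟩
    · intro u hu
      exact ⟨hT.smem u hu.1, by rw [hA u hu.1, hu.2, map_smul, map_smul]⟩
    · intro k u hu
      exact ⟨hT.bmem k u hu.1, by rw [hb k u hu.1, hu.2, map_smul]⟩
    · intro h
      have h3 : (v : V) ∈ U' := ⟨v.2, h1⟩
      rw [h] at h3
      exact hv0 ((Submodule.mem_bot K).1 h3)
  refine ⟨t, fun f hf => ?_⟩
  rw [← h2] at hf
  exact hf.2

/-- the induced representation attached to `tau`, `al`, `be` on `U` -/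
structure GTOut (m : ℕ) (s : ℤ → Module.End K V) (a : J → Module.End K V) (ξ η : J → J → K)
    {U : Type*} [AddCommGroup U] [Module K U] (τ : K) (al be : J → Module.End K U)
    (v : ℕ → (U →ₗ[K] V)) : Prop where
  t0 : τ ≠ 0
  t1 : τ ≠ 1
  span : (⨆ y : Fin (m + 1), LinearMap.range (v y)) = ⊤
  indep : ∀ f : Fin (m + 1) → U, ∑ y : Fin (m + 1), v y (f y) = 0 → ∀ y, f y = 0
  irr : ∀ W : Submodule K U, (∀ j, ∀ w ∈ W, al j w ∈ W) → (∀ j, ∀ w ∈ W, be j w ∈ W) →
    W = ⊥ ∨ W = ⊤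
  alinj : ∀ j, Function.Injective (al j)
  beinj : ∀ j, Function.Injective (be j)
  own : ∀ j w, al j (be j w) = be j (al j w)
  ab : ∀ i j, i < j → ∀ w, al i (be j w) = (ξ i j * τ + η i j) • be j (al i w)
  ba : ∀ i j, i < j → ∀ w, be i (al j w) = (ξ i j * τ + η i j) • al j (be i w)
  bb : ∀ i j, i < j → ∀ w, be i (be j w) = (ξ i j + η i j) • be j (be i w)
  s1 : ∀ x : ℕ, 1 ≤ x → x ≤ m → ∀ w, s x (v (x - 1) w) = v x w
  s2 : ∀ x : ℕ, 1 ≤ x → x ≤ m → ∀ w, s x (v x w) = τ • v (x - 1) w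
  s3 : ∀ x y : ℕ, 1 ≤ x → x ≤ m → y ≤ m → y ≠ x → y + 1 ≠ x → ∀ w, s x (v y w) = v y w
  a0 : ∀ j w, a j (v 0 w) = v 0 (al j w)
  a1 : ∀ j (y : ℕ), 1 ≤ y → y ≤ m → ∀ w, a j (v y w) = v y (be j w)

theorem gt_main {m : ℕ} (hm : 11 ≤ m) {s : ℤ → Module.End K V} {si : Module.End K V}
    {a : J → Module.End K V} {ξ η : J → J → K} (hP : GSys (m : ℤ) s si a ξ η)
    (hF : FarZ (m : ℤ) s) (hT : GTFacts (m : ℤ) s si a ξ η) (hirr : Irr (m : ℤ) s a)
    (hC : cE s 1 ≠ 0) :
    pF s si a ≠ ⊥ ∧ ∃ (τ : K) (al be : J → Module.End K (pF s si a))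
      (v : ℕ → (pF s si a →ₗ[K] V)), v 0 = (pF s si a).subtype ∧ GTOut m s a ξ η τ al be v := by
  have hm1 : 1 ≤ m := by omega
  have hne := gt3_F_ne hP hC
  have hinj : Function.Injective (s 1) := hP.inj 1 ⟨le_rfl, by exact_mod_cast hm1⟩
  have hsinj : Function.Injective si := by
    intro p q hpq
    have h1 := congrArg (s 1) hpq
    have h2 := LinearMap.congr_fun hP.inv1 p
    have h3 := LinearMap.congr_fun hP.inv1 q
    have h2' : s 1 (si p) = p := h2
    have h3' : s 1 (si q) = q := h3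
    rw [← h2', h1, h3']
  obtain ⟨τ, hτ⟩ := gt3_F_scalar hm1 hP hT hirr hne (s 1 * s 1) (fun f hf => hT.smem f hf)
    (fun j f hf => hT.sa j f hf) (fun f hf => rfl) (fun k f hf => hT.sb k f hf)
  have hτ' : ∀ f ∈ pF s si a, s 1 (s 1 f) = τ • f := hτ
  obtain ⟨f0, hf0, hf0n⟩ : ∃ f ∈ pF s si a, f ≠ 0 := Submodule.exists_mem_ne_zero_of_ne_bot hne
  have t0 : τ ≠ 0 := by
    rintro rfl
    have h1 := hτ' f0 hf0
    rw [zero_smul] at h1
    apply hf0n
    apply hinj
    apply hinj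
    rw [h1, map_zero, map_zero]
  have binj : ∀ j, Function.Injective (pb s si a j) := by
    intro j p q hpq
    exact hsinj (hP.ainj j (hinj hpq))
  have htop : gt3_N s m (pF s si a) = ⊤ := gt3_N_top hm1 hP hT hirr le_rfl hT.amem hT.smem hT.bmem hne
  have t1 : τ ≠ 1 := by
    rintro rfl
    apply gt3_C_ne hP hC
    refine LinearMap.ext fun w => ?_
    have hw : w ∈ gt3_N s m (pF s si a) := by rw [htop]; exact Submodule.mem_top
    have h1 : pC s si w ∈ (⊥ : Submodule K V) := by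
      refine gt3_N_ind (fun y hy u hu => ?_) w hw
      rcases Nat.eq_zero_or_pos y with rfl | h
      · show pC s si u ∈ (⊥ : Submodule K V)
        rw [hT.c0 u hu, hτ' u hu, one_smul, sub_self]
        exact Submodule.zero_mem _
      · obtain ⟨n, rfl⟩ : ∃ n : ℕ, y = n + 1 := ⟨y - 1, by omega⟩
        rw [gt3_C0_W hP hT hu n (by exact_mod_cast hy)]
        exact Submodule.zero_mem _
    exact (Submodule.mem_bot K).1 h1
  have hside : ∀ j, ∀ f ∈ pF s si a, si (a j (s 1 f)) = pb s si a j f := by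
    intro j f hf
    apply hinj
    apply hinj
    rw [gt3_side hP, hτ' f hf, map_smul, hτ' _ (hT.bmem j f hf)]
  let al : J → Module.End K (pF s si a) := fun j => (a j).restrict (hT.amem j)
  let be : J → Module.End K (pF s si a) := fun j => (pb s si a j).restrict (hT.bmem j)
  let v : ℕ → (pF s si a →ₗ[K] V) := fun y => (gt3_W s y) ∘ₗ (pF s si a).subtype
  have hv : ∀ y w, v y w = gt3_W s y (w : V) := fun y w => rfl
  have s1 : ∀ x : ℕ, 1 ≤ x → x ≤ m → ∀ w, s x (v (x - 1) w) = v x w := by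
    intro x hx1 hx2 w
    obtain ⟨n, rfl⟩ : ∃ n : ℕ, x = n + 1 := ⟨x - 1, by omega⟩
    rw [hv, hv, gt3_W_succ, Nat.add_sub_cancel]
    push_cast
    rfl
  have s2 : ∀ x : ℕ, 1 ≤ x → x ≤ m → ∀ w, s x (v x w) = τ • v (x - 1) w := by
    intro x hx1 hx2 w
    obtain ⟨n, rfl⟩ : ∃ n : ℕ, x = n + 1 := ⟨x - 1, by omega⟩
    rw [hv, hv, Nat.add_sub_cancel]
    have h1 := gt3_W_sq hP hT n (by exact_mod_cast hx2) (w : V) w.2
    push_cast
    rw [h1, hτ' _ w.2, map_smul]
  have s3 : ∀ x y : ℕ, 1 ≤ x → x ≤ m → y ≤ m → y ≠ x → y + 1 ≠ x → ∀ w,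
      s x (v y w) = v y w := by
    intro x y hx1 hx2 hy h1 h2 w
    rw [hv]
    exact gt3_W_fix hP hT w.2 y x (by exact_mod_cast hy) (by exact_mod_cast hx1)
      (by exact_mod_cast hx2) (by intro h; apply h1; exact_mod_cast h.symm)
      (by intro h; apply h2; exact_mod_cast h.symm)
  refine ⟨hne, τ, al, be, v, LinearMap.ext fun _ => rfl, ⟨t0, t1, ?_, ?_, ?_, ?_, ?_, ?_, ?_, ?_,
    ?_, s1, s2, s3, fun j w => rfl, ?_⟩⟩
  · -- span
    rw [← htop]
    unfold gt3_N
    congr 1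
    funext y
    show LinearMap.range ((gt3_W s y) ∘ₗ (pF s si a).subtype) = (pF s si a).map (gt3_W s y)
    rw [LinearMap.range_comp, Submodule.range_subtype]
  · -- independence
    have key : ∀ y : ℕ, y ≤ m → ∃ P : Module.End K V,
        (∀ w, P (v y w) = (τ ^ y * (τ - 1)) • (w : V)) ∧ ∀ z, z ≤ m → z ≠ y → ∀ w,
          P (v z w) = 0 := by
      intro y
      induction y with
      | zero =>
        intro _
        refine ⟨pC s si, ?_, ?_⟩
        · intro w
          show pC s si (w : V) = _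
          rw [hT.c0 _ w.2, hτ' _ w.2, pow_zero, one_mul, sub_smul, one_smul]
        · intro z hz hz0 w
          obtain ⟨n, rfl⟩ : ∃ n : ℕ, z = n + 1 := ⟨z - 1, by omega⟩
          exact gt3_C0_W hP hT w.2 n (by exact_mod_cast hz)
      | succ y ih =>
        intro hy
        obtain ⟨P, h1, h2⟩ := ih (by omega)
        refine ⟨P * s ((y + 1 : ℕ) : ℤ), ?_, ?_⟩
        · intro w
          show P (s ((y + 1 : ℕ) : ℤ) (v (y + 1) w)) = _
          rw [s2 (y + 1) (by omega) hy w, map_smul, Nat.add_sub_cancel, h1, smul_smul]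
          congr 1
          ring
        · intro z hz hzy w
          show P (s ((y + 1 : ℕ) : ℤ) (v z w)) = 0
          by_cases c1 : z = y
          · subst c1
            have h3 := s1 (z + 1) (by omega) hy w
            rw [Nat.add_sub_cancel] at h3
            rw [h3]
            exact h2 (z + 1) hy (by omega) w
          · rw [s3 (y + 1) z (by omega) hy hz hzy (by omega) w]
            exact h2 z hz c1 w
    intro f hf y
    obtain ⟨P, h1, h2⟩ := key y (by omega)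
    have h3 := congrArg P hf
    rw [map_zero, map_sum, Finset.sum_eq_single y] at h3
    · rw [h1] at h3
      rcases smul_eq_zero.1 h3 with h4 | h4
      · exfalso
        rcases mul_eq_zero.1 h4 with h5 | h5
        · exact pow_ne_zero _ t0 h5
        · exact t1 (sub_eq_zero.1 h5)
      · exact Subtype.ext h4
    · intro z _ hz
      exact h2 z (by omega) (fun h => hz (Fin.ext h)) _
    · intro h
      exact absurd (Finset.mem_univ y) h
  · -- irreducibility
    intro W hW hWb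
    by_cases hW0 : W = ⊥
    · exact Or.inl hW0
    right
    have h1 : W.map (pF s si a).subtype = pF s si a := by
      refine gt3_F_min hm1 hP hT hirr (Submodule.map_subtype_le _ _) ?_ ?_ ?_ ?_
      · rintro j _ ⟨w, hw, rfl⟩
        exact ⟨al j w, hW j w hw, rfl⟩
      · rintro _ ⟨w, hw, rfl⟩
        show s 1 (s 1 (w : V)) ∈ _
        rw [hτ' _ w.2]
        exact Submodule.smul_mem _ _ ⟨w, hw, rfl⟩
      · rintro k _ ⟨w, hw, rfl⟩
        exact ⟨be k w, hWb k w hw, rfl⟩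
      · intro h
        apply hW0
        rw [eq_bot_iff]
        intro w hw
        have h3 : (w : V) ∈ W.map (pF s si a).subtype := ⟨w, hw, rfl⟩
        rw [h] at h3
        exact (Submodule.mem_bot K).2 (Subtype.ext ((Submodule.mem_bot K).1 h3))
    rw [eq_top_iff]
    rintro w -
    have h2 : (w : V) ∈ W.map (pF s si a).subtype := by rw [h1]; exact w.2
    obtain ⟨w', hw', e⟩ := h2
    have e' : w' = w := Subtype.ext e
    rw [← e']
    exact hw'
  · -- injectivity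
    intro j p q hpq
    have h1 := congrArg Subtype.val hpq
    exact Subtype.ext (hP.ainj j h1)
  · intro j p q hpq
    have h1 := congrArg Subtype.val hpq
    exact Subtype.ext (binj j h1)
  · intro j w
    exact Subtype.ext (hT.own j (w : V) w.2)
  · intro i j hij w
    apply Subtype.ext
    show a i (pb s si a j (w : V)) = (ξ i j * τ + η i j) • pb s si a j (a i (w : V))
    rw [hT.ab i j hij _ w.2, hτ' _ (hT.bmem j _ (hT.amem i _ w.2)), add_smul, mul_smul]
  · intro i j hij w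
    apply Subtype.ext
    show pb s si a i (a j (w : V)) = (ξ i j * τ + η i j) • a j (pb s si a i (w : V))
    rw [hT.ba i j hij _ w.2, hτ' _ (hT.amem j _ (hT.bmem i _ w.2)), add_smul, mul_smul]
  · intro i j hij w
    exact Subtype.ext (hT.bb i j hij (w : V) w.2)
  · intro j y hy1 hy2 w
    obtain ⟨n, rfl⟩ : ∃ n : ℕ, y = n + 1 := ⟨y - 1, by omega⟩
    rw [hv, gt3_W_a hP j n (by exact_mod_cast hy2), hside j _ w.2]
    rfl

end Pool.Agent.PCG
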