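import Pool.Agent.Lib.PCF.Defs

/-!
# Configurations on a surface: operators

As `PCF.Defs`, with a general cross relation: for `i < j`
`a i * (s 1 * a j * si) = s 1 * a j * (ξ i j • s 1 + η i j • si) * a i`, where one of the scalars
`ξ i j`, `η i j` is zero and their sum is not zero (`(0, 1)`: different handles or punctures,
`(μ ^ 2, 0)`: the two loops of a handle).
-/

namespace Pool.Agent.PCG

open Pool.Agent.Art Pool.Agent.PCF

variable {K V J : Type*} [Field K] [AddCommGroup V] [Module K V] [LinearOrder J]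

/-- the relations of the fundamental group, for invertible operators -/
structure GSys (m : ℤ) (s : ℤ → Module.End K V) (si : Module.End K V)
    (a : J → Module.End K V) (ξ η : J → J → K) : Prop where
  chain : ASys hum (Set.Icc 1 m) s
  inj : ∀ x ∈ Set.Icc 1 m, Function.Injective (s x)
  inv1 : s 1 * si = 1
  inv2 : si * s 1 = 1
  ainj : ∀ j, Function.Injective (a j)
  far : ∀ j x, 2 ≤ x → x ≤ m → a j * s x = s x * a j
  own : ∀ j, a j * s 1 * a j * s 1 = s 1 * a j * s 1 * a j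
  cross : ∀ i j, i < j →
    a i * (s 1 * a j * si) = s 1 * a j * (ξ i j • s 1 + η i j • si) * a i
  xy : ∀ i j, i < j → ξ i j = 0 ∨ η i j = 0
  xy0 : ∀ i j, i < j → ξ i j + η i j ≠ 0

/-- `E j = B j - D j` -/
def pE (s : ℤ → Module.End K V) (si : Module.End K V) (a : J → Module.End K V) (j : J) :
    Module.End K V := pB s a j - pD s si a j

/-- the facts on `U = pU s` when the crossed elements vanish -/
structure GBFacts (s : ℤ → Module.End K V) (si : Module.End K V) (a : J → Module.End K V)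
    (ξ η : J → J → K) : Prop where
  psi : ∀ u ∈ pU s, (s 1 - 1) ((s 2 - 1) u) = - s 1 u
  smem : ∀ u ∈ pU s, s 1 u ∈ pU s
  simem : ∀ u ∈ pU s, si u ∈ pU s
  dinj : ∀ j, ∀ u ∈ pU s, pD s si a j u = 0 → u = 0
  act2 : ∀ j, ∀ u ∈ pU s, a j ((s 2 - 1) u) = (s 2 - 1) (pD s si a j u)
  act2' : ∀ j, ∀ u ∈ pU s, (s 2 - 1) (a j u) = (s 2 - 1) (pD s si a j u)
  ds : ∀ j, ∀ u ∈ pU s, pD s si a j (s 1 u) = s 1 (pD s si a j u)
  bs : ∀ j, ∀ u ∈ pU s, pB s a j (s 1 u) = s 1 (pB s a j u)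
  dd : ∀ i j, i < j → ∀ u ∈ pU s, pD s si a i (pD s si a j u) =
    (ξ i j + η i j) • pD s si a j (pD s si a i u)
  db : ∀ i, ∀ u ∈ pU s, pD s si a i (pB s a i u) = pB s a i (pD s si a i u)
  /-- `D i E j = (η - ξ s1) E j D i` -/
  de : ∀ i j, i < j → ∀ u ∈ pU s, pD s si a i (pE s si a j u) =
    η i j • pE s si a j (pD s si a i u) - ξ i j • s 1 (pE s si a j (pD s si a i u))
  /-- `E i D j = (η - ξ s1) D j E i` -/
  ed : ∀ i j, i < j → ∀ u ∈ pU s, pE s si a i (pD s si a j u) =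
    η i j • pD s si a j (pE s si a i u) - ξ i j • s 1 (pD s si a j (pE s si a i u))
  own : ∀ i, ∀ u ∈ pU s, a i (a i u) = a i (pB s a i u) + pD s si a i (pD s si a i u) -
    pB s a i (pD s si a i u)
  lo : ∀ i j, i < j → ∀ u ∈ pU s, a i (a j u) = a i (pD s si a j (s 1 u) + pB s a j u) +
    η i j • (a j (pD s si a i u) -
      (pD s si a j (s 1 (pD s si a i u)) + pB s a j (pD s si a i u))) -
    ξ i j • (a j (s 1 (pD s si a i u)) +
      (pD s si a j (s 1 (pD s si a i u)) - pB s a j (s 1 (pD s si a i u))))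
  hi : ∀ i j, i < j → ∀ u ∈ pU s, (ξ i j + η i j) • a j (a i u) = a i (pD s si a j u) +
    a j (η i j • si (pD s si a i u - pB s a i u) - ξ i j • (pD s si a i u - pB s a i u)) +
    si (pB s a i (pD s si a j u) - (ξ i j + η i j) • pD s si a j (pD s si a i u))

/-- the facts on `F = pF s si a` -/
structure GTFacts (m : ℤ) (s : ℤ → Module.End K V) (si : Module.End K V)
    (a : J → Module.End K V) (ξ η : J → J → K) : Prop where
  fix : ∀ x, 2 ≤ x → x ≤ m → ∀ f ∈ pF s si a, s x f = f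
  amem : ∀ j, ∀ f ∈ pF s si a, a j f ∈ pF s si a
  smem : ∀ f ∈ pF s si a, s 1 (s 1 f) ∈ pF s si a
  bmem : ∀ k, ∀ f ∈ pF s si a, pb s si a k f ∈ pF s si a
  sa : ∀ j, ∀ f ∈ pF s si a, s 1 (s 1 (a j f)) = a j (s 1 (s 1 f))
  sb : ∀ k, ∀ f ∈ pF s si a, s 1 (s 1 (pb s si a k f)) = pb s si a k (s 1 (s 1 f))
  own : ∀ j, ∀ f ∈ pF s si a, a j (pb s si a j f) = pb s si a j (a j f)
  /-- `a i b j = (ξ A + η) b j a i` -/
  ab : ∀ i j, i < j → ∀ f ∈ pF s si a, a i (pb s si a j f) =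
    ξ i j • s 1 (s 1 (pb s si a j (a i f))) + η i j • pb s si a j (a i f)
  /-- `b i a j = (ξ A + η) a j b i` -/
  ba : ∀ i j, i < j → ∀ f ∈ pF s si a, pb s si a i (a j f) =
    ξ i j • s 1 (s 1 (a j (pb s si a i f))) + η i j • a j (pb s si a i f)
  bb : ∀ i j, i < j → ∀ f ∈ pF s si a, pb s si a i (pb s si a j f) =
    (ξ i j + η i j) • pb s si a j (pb s si a i f)
  c0 : ∀ f ∈ pF s si a, pC s si f = s 1 (s 1 f) - f
  c1 : ∀ f ∈ pF s si a, cE s 1 f = 0

end Pool.Agent.PCG
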